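import Pool.Agent.P.MP_0a2852_co.Small

/-! In the partition game, the number of orders of a `k`-set grows faster than any power of `k`. -/

namespace Pool.Agent.P.MP_0a2852_co

open Finset Filter
open scoped Classical

theorem pow_le_two_pow (a E : ℕ) : ∃ s₀ : ℕ, ∀ s ≥ s₀, (a * s + 1) ^ E ≤ 2 ^ s := by
  have h := tendsto_pow_const_div_const_pow_of_one_lt E (show (1 : ℝ) < 2 by norm_num)
  have hpos : (0 : ℝ) < 1 / ((a : ℝ) + 1) ^ E := by positivity
  obtain ⟨s₀, hs₀⟩ := eventually_atTop.1 (h.eventually (gt_mem_nhds hpos))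
  refine ⟨s₀ + 1, fun s hs => ?_⟩
  have h1 := hs₀ s (by omega)
  rw [div_lt_div_iff₀ (by positivity) (by positivity), one_mul, ← mul_pow] at h1
  have h2 : ((a * s + 1 : ℕ) : ℝ) ≤ (s : ℝ) * (a + 1) := by
    have : (1 : ℝ) ≤ s := by exact_mod_cast (show 1 ≤ s by omega)
    push_cast
    nlinarith
  have h3 : (((a * s + 1 : ℕ) : ℝ)) ^ E ≤ 2 ^ s :=
    (pow_le_pow_left₀ (by positivity) h2 E).trans h1.le
  exact_mod_cast h3

theorem balance {n l E : ℕ} (hl : l ≤ n) (h : 2 * l ^ E < n ^ E) : n ≤ 2 * E * (n - l) := by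
  by_contra hcon
  push Not at hcon
  have hn : (0 : ℝ) < n := by exact_mod_cast (show 0 < n by omega)
  have h1 : (2 : ℝ) * E * (n - l) < n := by
    have : ((2 * E * (n - l) : ℕ) : ℝ) < n := by exact_mod_cast hcon
    rwa [Nat.cast_mul, Nat.cast_mul, Nat.cast_sub hl] at this
  have hl' : (0 : ℝ) ≤ l := by positivity
  have h2 := one_add_mul_le_pow (a := (l : ℝ) / n - 1)
    (by have : (0 : ℝ) ≤ l / n := by positivity
        linarith) E
  rw [add_sub_cancel, div_pow] at h2
  have h3 : (1 : ℝ) / 2 < 1 + E * (l / n - 1) := by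
    have : (l : ℝ) / n - 1 = -((n - l) / n) := by field_simp; ring
    rw [this]
    have h4 : (E : ℝ) * ((n - l) / n) < 1 / 2 := by
      rw [← mul_div_assoc, div_lt_div_iff₀ hn (by norm_num)]
      linarith
    linarith
  have h4 : (1 : ℝ) / 2 < (l : ℝ) ^ E / (n : ℝ) ^ E := h3.trans_le h2
  rw [div_lt_div_iff₀ (by norm_num) (by positivity)] at h4
  have h5 : (2 : ℝ) * (l : ℝ) ^ E < (n : ℝ) ^ E := by exact_mod_cast h
  linarith

/-- The thresholds for the sizes of tie classes. -/
def Zs (B E : ℕ) : ℕ → ℕ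
  | 0 => 1
  | j + 1 => Zs B E j * (B * Zs B E j) ^ E

theorem Zs_pos {B E : ℕ} (hB : 0 < B) (j : ℕ) : 0 < Zs B E j := by
  induction j with
  | zero => exact Nat.one_pos
  | succ j ih => exact Nat.mul_pos ih (Nat.pow_pos (Nat.mul_pos hB ih))

theorem Zs_mono {B E : ℕ} (hB : 0 < B) : Monotone (Zs B E) := by
  apply monotone_nat_of_le_succ
  intro j
  exact Nat.le_mul_of_pos_right _ (Nat.pow_pos (Nat.mul_pos hB (Zs_pos hB j)))

variable {X ι : Type} {S : Finset X} {v : ι → X → ℕ}

theorem exists_big_fiber' (T : Finset X) (f : X → ℕ) (hT : T.Nonempty) :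
    ∃ x ∈ T, T.card ≤ (T.image f).card * (T.filter fun y => f y = f x).card := by
  obtain ⟨x, hx, hx', -⟩ := exists_big_fiber T f hT
  refine ⟨x, hx, ?_⟩
  exact hx'

theorem transversal {β : Type} [DecidableEq β] (T : Finset X) (f : X → β) {Z : ℕ}
    (h : ∀ x ∈ T, (T.filter fun y => f y = f x).card ≤ Z) :
    ∃ T' ⊆ T, (∀ x ∈ T', ∀ y ∈ T', f x = f y → x = y) ∧ T.card ≤ Z * T'.card := by
  obtain ⟨u, hu, hinj, him⟩ := exists_subset_injOn_image_eq_of_surjOn (f := f) (T : Set X)
    (T.image f) (by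
      intro b hb
      obtain ⟨x, hx, rfl⟩ := mem_image.1 hb
      exact ⟨x, hx, rfl⟩)
  refine ⟨u, hu, fun x hx y hy hxy => hinj hx hy hxy, ?_⟩
  rw [← card_image_of_injOn hinj, him]
  apply card_le_mul_card_image
  intro b hb
  obtain ⟨z, hz, rfl⟩ := mem_image.1 hb
  exact h z hz

theorem compress {C : Finset X} {i : ι} {P : Finset (X × X)} (h : Compat v C i P) :
    ∃ g : X → ℕ, (∀ x ∈ C, g x < (C.image (v i)).card) ∧
      (∀ x ∈ C, ∀ y ∈ C, g x = g y ↔ v i x = v i y) ∧
      ∀ x ∈ C, ∀ y ∈ C, (x, y) ∈ P → g x ≤ g y := by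
  obtain ⟨g, hg, hg'⟩ := h
  have hmono : ∀ x y, g x ≤ g y → ((C.filter fun z => g z < g x).image (v i)).card ≤
      ((C.filter fun z => g z < g y).image (v i)).card := by
    intro x y hxy
    refine card_le_card (image_subset_image fun z hz => ?_)
    obtain ⟨hz, hz'⟩ := mem_filter.1 hz
    exact mem_filter.2 ⟨hz, hz'.trans_le hxy⟩
  have hnot : ∀ x ∈ C, v i x ∉ (C.filter fun z => g z < g x).image (v i) := by
    intro x hx hmem
    obtain ⟨z, hz, hz'⟩ := mem_image.1 hmem
    obtain ⟨hz, hz''⟩ := mem_filter.1 hz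
    exact hz''.ne ((hg z hz x hx).2 hz')
  have hlt : ∀ x ∈ C, ∀ y, g x < g y → ((C.filter fun z => g z < g x).image (v i)).card <
      ((C.filter fun z => g z < g y).image (v i)).card := by
    intro x hx y hxy
    apply card_lt_card
    rw [ssubset_iff_of_subset]
    · exact ⟨v i x, mem_image_of_mem _ (mem_filter.2 ⟨hx, hxy⟩), hnot x hx⟩
    · refine image_subset_image fun z hz => ?_
      obtain ⟨hz, hz'⟩ := mem_filter.1 hz
      exact mem_filter.2 ⟨hz, hz'.trans hxy⟩
  refine ⟨fun x => ((C.filter fun z => g z < g x).image (v i)).card, ?_, ?_, ?_⟩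
  · intro x hx
    apply card_lt_card
    rw [ssubset_iff_of_subset (image_subset_image (filter_subset _ _))]
    exact ⟨v i x, mem_image_of_mem _ hx, hnot x hx⟩
  · intro x hx y hy
    rw [← hg x hx y hy]
    constructor
    · intro h
      rcases lt_trichotomy (g x) (g y) with h1 | h1 | h1
      · exact absurd h (hlt x hx y h1).ne
      · exact h1
      · exact absurd h (hlt y hy x h1).ne'
    · intro h
      simp only [h]
  · intro x hx y hy hxy
    exact hmono x y (hg' x hx y hy hxy)

/-- Either few maximal partitions are compatible with a given order, or there are `t` steps that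
create at most `c * t + 1` classes and at least `2 ^ t` weak orders. -/
theorem laminar [Finite ι] {U : Set ι} (hU : Up S v U) {C : Finset X} (hC : C ⊆ S)
    {R : X → X → Prop} (hR : Tied R C) {M : Finset ι} (hM : ∀ i ∈ M, CMax v U C i)
    (hinj : Set.InjOn (ker C v) M) {c : ℕ} (hc : ∀ i ∈ M, (C.image (v i)).card ≤ c)
    {P : Finset (X × X)} (hP : P ∈ Pats S v U R C) (t : ℕ) :
    (M.filter fun i => Compat v C i P).card ≤ 2 ^ ((c * t + 1) * (c * t + 1)) ∨
    ∃ G : X → ℕ, (∀ x ∈ C, G x ≤ c * t) ∧ (∀ x ∈ C, ∀ y ∈ C, (x, y) ∈ P → G x ≤ G y) ∧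
      ∃ (κ : Type) (Γ : Finset κ) (l : κ → List (ι × (X → ℕ))), Γ.card = 2 ^ t ∧
        (∀ γ ∈ Γ, Val S v U R (l γ) ∧
          ∀ x ∈ C, ∀ y ∈ C, (∀ m ∈ l γ, v m.1 x = v m.1 y) ↔ G x = G y) ∧
        ∀ γ ∈ Γ, ∀ γ' ∈ Γ, γ ≠ γ' →
          ∃ x ∈ C, ∃ y ∈ C, lexLt (rk (l γ)) x y ∧ lexLt (rk (l γ')) y x := by
  induction t with
  | zero =>
    right
    refine ⟨fun _ => 0, fun _ _ => Nat.zero_le _, fun _ _ _ _ _ => le_rfl, Unit, univ,
      fun _ => [], by simp, fun _ _ => ⟨trivial, by simp⟩, fun γ _ γ' _ h => (h rfl).elim⟩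
  | succ t ih =>
    rcases ih with ih | ⟨G, hG1, hG2, κ, Γ, l, hΓ, hl, hd⟩
    · left
      refine ih.trans (Nat.pow_le_pow_right (by norm_num) ?_)
      have : c * t + 1 ≤ c * (t + 1) + 1 := by nlinarith
      exact Nat.mul_le_mul this this
    by_cases hex : ∃ i ∈ M, Compat v C i P ∧ ∃ x ∈ C, ∃ y ∈ C, G x = G y ∧ v i x ≠ v i y
    · right
      obtain ⟨i, hi, hcomp, x₀, hx₀, y₀, hy₀, hG₀, hv₀⟩ := hex
      obtain ⟨g, hg1, hg2, hg3⟩ := compress hcomp
      have hgc : ∀ x ∈ C, g x < c := fun x hx => (hg1 x hx).trans_le (hc i hi)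
      have hstep : ∀ p : κ × Bool, ∃ l' : List (ι × (X → ℕ)), p.1 ∈ Γ →
          Val S v U (after v R (l p.1)) l' ∧
          (∀ x ∈ C, ∀ y ∈ C, (∀ m ∈ l', v m.1 x = v m.1 y) ↔ v i x = v i y) ∧
          ∀ x ∈ C, ∀ y ∈ C, g x < g y →
            (p.2 = true → lexLt (rk l') x y) ∧ (p.2 = false → lexLt (rk l') y x) := by
        rintro ⟨γ, b⟩
        by_cases hγ : γ ∈ Γ
        · obtain ⟨l', g', h1, h2, h3, h4, h5⟩ := cstep hU hC (hM i hi)
            (fun x => if b = true then g x else c - g x)
            (fun x hx y hy h => by simp only [(hg2 x hx y hy).2 h]) (after v R (l γ))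
            ⟨x₀, hx₀, y₀, hy₀, ⟨hR _ hx₀ _ hy₀, ((hl γ hγ).2 _ hx₀ _ hy₀).2 hG₀⟩, hv₀⟩
          refine ⟨l', fun _ => ⟨h1, h2, fun x hx y hy hxy => ⟨fun hb => ?_, fun hb => ?_⟩⟩⟩
          · simp only at hb
            exact (h5 x hx y hy).2 (h4 x hx y hy (by simp [hb, hxy]))
          · simp only at hb
            refine (h5 y hy x hx).2 (h4 y hy x hx ?_)
            have := hgc y hy
            simp only [hb, Bool.false_eq_true, if_false]
            omega
        · exact ⟨[], fun h => (hγ h).elim⟩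
      choose l' hl' using hstep
      have hsum : ∀ x ∈ C, ∀ y ∈ C, G x + g x = G y + g y ↔ G x = G y ∧ v i x = v i y := by
        intro x hx y hy
        rw [← hg2 x hx y hy]
        constructor
        · intro h
          by_cases hxy : x = y
          · simp [hxy]
          rcases Pats_total hC hP hx hy hxy with h' | h'
          · have h1 := hG2 x hx y hy h'
            have h2 := hg3 x hx y hy h'
            omega
          · have h1 := hG2 y hy x hx h'
            have h2 := hg3 y hy x hx h'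
            omega
        · intro h
          omega
      refine ⟨fun x => G x + g x, ?_, ?_, κ × Bool, Γ ×ˢ univ, fun p => l p.1 ++ l' p, ?_, ?_, ?_⟩
      · intro x hx
        have h1 := hG1 x hx
        have h2 := hgc x hx
        simp only [mul_add, mul_one]
        omega
      · intro x hx y hy h
        exact Nat.add_le_add (hG2 x hx y hy h) (hg3 x hx y hy h)
      · rw [card_product, hΓ, pow_succ]
        simp
      · intro p hp
        have hp1 : p.1 ∈ Γ := (mem_product.1 hp).1
        refine ⟨Val_append.2 ⟨(hl _ hp1).1, (hl' p hp1).1⟩, fun x hx y hy => ?_⟩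
        rw [hsum x hx y hy, ← (hl _ hp1).2 x hx y hy, ← (hl' p hp1).2.1 x hx y hy]
        simp only [List.mem_append, or_imp, forall_and]
      · rintro ⟨γ, b⟩ hp ⟨γ', b'⟩ hp' hne
        have hγ : γ ∈ Γ := (mem_product.1 hp).1
        have hγ' : γ' ∈ Γ := (mem_product.1 hp').1
        simp only [rk, List.map_append]
        by_cases hγγ : γ = γ'
        · subst hγγ
          have hbb : b ≠ b' := fun h => hne (by rw [h])
          have htie : ∀ x ∈ C, ∀ y ∈ C, G x = G y → ∀ f ∈ rk (l γ), f x = f y := by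
            intro x hx y hy h f hf
            obtain ⟨m, hm, rfl⟩ := List.mem_map.1 hf
            exact ((Val_mem (hl γ hγ).1 m hm).2 x (hC hx) y (hC hy)).2
              (((hl γ hγ).2 x hx y hy).2 h m hm)
          have hpair : ∃ x ∈ C, ∃ y ∈ C, G x = G y ∧ g x < g y := by
            have hne' : g x₀ ≠ g y₀ := fun h => hv₀ ((hg2 _ hx₀ _ hy₀).1 h)
            rcases lt_or_gt_of_ne hne' with h | h
            · exact ⟨x₀, hx₀, y₀, hy₀, hG₀, h⟩
            · exact ⟨y₀, hy₀, x₀, hx₀, hG₀.symm, h⟩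
          obtain ⟨x, hx, y, hy, hGxy, hgxy⟩ := hpair
          have h1 := (hl' (γ, b) hγ).2.2 x hx y hy hgxy
          have h2 := (hl' (γ, b') hγ).2.2 x hx y hy hgxy
          cases b <;> cases b'
          · exact (hbb rfl).elim
          · exact ⟨y, hy, x, hx, lexLt_append.2 (Or.inr ⟨htie y hy x hx hGxy.symm, h1.2 rfl⟩),
              lexLt_append.2 (Or.inr ⟨htie x hx y hy hGxy, h2.1 rfl⟩)⟩
          · exact ⟨x, hx, y, hy, lexLt_append.2 (Or.inr ⟨htie x hx y hy hGxy, h1.1 rfl⟩),
              lexLt_append.2 (Or.inr ⟨htie y hy x hx hGxy.symm, h2.2 rfl⟩)⟩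
          · exact (hbb rfl).elim
        · obtain ⟨x, hx, y, hy, h1, h2⟩ := hd γ hγ γ' hγ' hγγ
          exact ⟨x, hx, y, hy, lexLt_append.2 (Or.inl h1), lexLt_append.2 (Or.inl h2)⟩
    · left
      push Not at hex
      have h1 : (M.filter fun i => Compat v C i P).card ≤
          (range (c * t + 1) ×ˢ range (c * t + 1)).powerset.card := by
        apply card_le_card_of_injOn (fun i => (ker C v i).image fun p => (G p.1, G p.2))
        · intro i _
          refine mem_coe.2 (mem_powerset.2 ?_)
          intro z hz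
          obtain ⟨⟨x, y⟩, hp, rfl⟩ := mem_image.1 hz
          obtain ⟨hx, hy, -⟩ := mem_ker.1 hp
          simp only [mem_product, mem_range]
          exact ⟨Nat.lt_succ_of_le (hG1 x hx), Nat.lt_succ_of_le (hG1 y hy)⟩
        · have hsub : ∀ i ∈ M.filter (fun i => Compat v C i P), ∀ j,
              ((ker C v j).image fun p => (G p.1, G p.2)) =
                ((ker C v i).image fun p => (G p.1, G p.2)) → ker C v j ⊆ ker C v i := by
            rintro i hi j h ⟨x, y⟩ hp
            obtain ⟨hi, hi'⟩ := mem_filter.1 hi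
            obtain ⟨hx, hy, -⟩ := mem_ker.1 hp
            have h2 : (G x, G y) ∈ (ker C v j).image fun p => (G p.1, G p.2) :=
              mem_image_of_mem _ hp
            rw [h] at h2
            obtain ⟨⟨x', y'⟩, hp', he⟩ := mem_image.1 h2
            obtain ⟨hx', hy', hv'⟩ := mem_ker.1 hp'
            obtain ⟨e1, e2⟩ := Prod.mk.inj he
            refine mem_ker.2 ⟨hx, hy, ?_⟩
            rw [← hex i hi hi' x' hx' x hx e1, ← hex i hi hi' y' hy' y hy e2, hv']
          intro i hi j hj h
          exact hinj (mem_filter.1 hi).1 (mem_filter.1 hj).1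
            (Subset.antisymm (hsub j hj i h) (hsub i hi j h.symm))
      rw [card_powerset, card_product, card_range] at h1
      refine h1.trans (Nat.pow_le_pow_right (by norm_num) ?_)
      have : c * t + 1 ≤ c * (t + 1) + 1 := by nlinarith
      exact Nat.mul_le_mul this this

theorem ker_eq_iff {C : Finset X} {i j : ι} :
    ker C v i = ker C v j ↔ ∀ x ∈ C, ∀ y ∈ C, v i x = v i y ↔ v j x = v j y := by
  constructor
  · intro h x hx y hy
    constructor
    · intro h'
      have : (x, y) ∈ ker C v i := mem_ker.2 ⟨hx, hy, h'⟩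
      rw [h] at this
      exact (mem_ker.1 this).2.2
    · intro h'
      have : (x, y) ∈ ker C v j := mem_ker.2 ⟨hx, hy, h'⟩
      rw [← h] at this
      exact (mem_ker.1 this).2.2
  · intro h
    ext ⟨x, y⟩
    simp only [mem_ker]
    constructor
    · exact fun h' => ⟨h'.1, h'.2.1, (h x h'.1 y h'.2.1).1 h'.2.2⟩
    · exact fun h' => ⟨h'.1, h'.2.1, (h x h'.1 y h'.2.1).2 h'.2.2⟩

/-- The partitions that remain after removing the proper refinements of the members of `J`. -/
def UJ (v : ι → X → ℕ) (U : Set ι) (C : Finset X) (M J : Finset ι) : Set ι :=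
  {i | i ∈ U ∧ ((∃ i' ∈ M, ker C v i = ker C v i') ∨ ∀ j ∈ J, ¬ Coarser C v j i)}

theorem UJ_up {U : Set ι} (hU : Up S v U) {C : Finset X} (hC : C ⊆ S) {M J : Finset ι}
    (hM : ∀ i ∈ M, CMax v U C i) (hJ : J ⊆ M) : Up S v (UJ v U C M J) := by
  rintro i ⟨hi, hi'⟩ i'' hco
  have hU'' : i'' ∈ U := hU i hi i'' hco
  have hcoC : Coarser C v i'' i := fun x hx y hy h => hco x (hC hx) y (hC hy) h
  refine ⟨hU'', ?_⟩
  rcases hi' with ⟨i', hi', hk⟩ | hi'
  · by_cases hs : ∃ x ∈ C, ∃ y ∈ C, v i'' x ≠ v i'' y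
    · left
      have h1 : Coarser C v i'' i' := fun x hx y hy h =>
        hcoC x hx y hy ((ker_eq_iff.1 hk x hx y hy).2 h)
      have h2 := (hM i' hi').2.2 i'' hU'' h1 hs
      exact ⟨i', hi', ker_eq_iff.2 fun x hx y hy => ⟨h2 x hx y hy, h1 x hx y hy⟩⟩
    · right
      push Not at hs
      intro j hj hcj
      obtain ⟨x, hx, y, hy, hne⟩ := (hM j (hJ hj)).2.1
      exact hne (hcj x hx y hy (hs x hx y hy))
  · right
    intro j hj hcj
    exact hi' j hj fun x hx y hy h => hcj x hx y hy (hcoC x hx y hy h)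

theorem big (E : ℕ) (hE : 1 ≤ E) : ∃ K : ℕ, 0 < K ∧ ∀ (X ι : Type) [Finite ι] (S : Finset X)
    (v : ι → X → ℕ) (n : ℕ) (C : Finset X), C.card = n → C ⊆ S →
    ∀ (U : Set ι) (R : X → X → Prop), Up S v U → Sep v U C → Tied R C →
      n ^ E ≤ K * (Pats S v U R C).card := by
  obtain ⟨c₁, hc₁⟩ := pow_le_two_pow 1 E
  set c := c₁ + 1 with hcdef
  have hc0 : 0 < c := by omega
  obtain ⟨s₁, hs₁⟩ := pow_le_two_pow c E
  set s := s₁ + 1 with hsdef
  have hs : (c * s + 1) ^ E ≤ 2 ^ s := hs₁ s (by omega)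
  set lam := 2 ^ ((c * s + 1) * (c * s + 1)) with hlam
  set μ := lam * c ^ E with hμ
  have hB : 0 < 2 * E * c := by positivity
  set k₀ := c ^ μ * Zs (2 * E * c) E μ with hk₀
  have hk₀pos : 0 < k₀ := Nat.mul_pos (Nat.pow_pos hc0) (Zs_pos hB μ)
  refine ⟨k₀ ^ E, Nat.pow_pos hk₀pos, ?_⟩
  set K := k₀ ^ E with hK
  intro X ι _ S v n
  induction n using Nat.strong_induction_on with
  | _ n ih =>
  intro C hn hC U R hU hsep hR
  by_contra hcon
  push Not at hcon
  have hpos := Pats_pos hU hC hsep hR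
  have hnk : k₀ < n := by
    by_contra h
    push Not at h
    have h1 : n ^ E ≤ K := Nat.pow_le_pow_left h E
    have h2 : K ≤ K * (Pats S v U R C).card := Nat.le_mul_of_pos_right _ hpos
    omega
  have hne : C.Nonempty := card_pos.1 (by omega)
  have hb : ∀ i, CMax v U C i → ∀ x,
      2 ^ ((C.image (v i)).card - 1) * (C.filter fun y => v i y = v i x).card ^ E ≤
        K * ((Pats S v U R C).filter (Compat v C i)).card := by
    intro i hi x
    refine basic hU hC hR hi fun l hl hl' => ?_
    refine (ih _ (hn ▸ fiber_lt hi x) _ rfl ((filter_subset _ _).trans hC) U _ hU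
      (hsep.mono (filter_subset _ _)) (tied_fiber hl' x)).trans (Nat.mul_le_mul_left _ ?_)
    exact master' hU hC hsep hR hl (filter_subset _ _) hne (tied_fiber hl' x)
  have hb' : ∀ i, CMax v U C i → ∀ x,
      2 ^ ((C.image (v i)).card - 1) * (C.filter fun y => v i y = v i x).card ^ E < n ^ E :=
    fun i hi x => ((hb i hi x).trans (Nat.mul_le_mul_left _ (card_filter_le _ _))).trans_lt hcon
  have hbig : ∀ i, ∃ x ∈ C,
      n ≤ (C.image (v i)).card * (C.filter fun y => v i y = v i x).card := by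
    intro i
    obtain ⟨x, hx, hx', -⟩ := exists_big_fiber C (v i) hne
    refine ⟨x, hx, ?_⟩
    rw [← hn]
    exact hx'
  have hc : ∀ i, CMax v U C i → (C.image (v i)).card ≤ c := by
    intro i hi
    by_contra h
    push Not at h
    obtain ⟨x, -, hx⟩ := hbig i
    have h1 := hc₁ ((C.image (v i)).card - 1) (by omega)
    rw [one_mul, Nat.sub_add_cancel (by omega)] at h1
    have h2 := Nat.pow_le_pow_left hx E
    rw [mul_pow] at h2
    have h3 := Nat.mul_le_mul_right ((C.filter fun y => v i y = v i x).card ^ E) h1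
    have h4 := hb' i hi x
    omega
  have hbal : ∀ i, CMax v U C i → ∀ x,
      n ≤ 2 * E * (C.filter fun y => ¬ v i y = v i x).card := by
    intro i hi x
    have h1 := card_filter_add_card_filter_not (s := C) (fun y => v i y = v i x)
    have h2 : (C.filter fun y => ¬ v i y = v i x).card =
        n - (C.filter fun y => v i y = v i x).card := by omega
    rw [h2]
    refine balance (by omega) (lt_of_le_of_lt (Nat.mul_le_mul_right _ ?_) (hb' i hi x))
    have := two_le_image hi
    calc 2 = 2 ^ 1 := by norm_num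
      _ ≤ _ := Nat.pow_le_pow_right (by norm_num) (by omega)
  have := Fintype.ofFinite ι
  obtain ⟨M, hM, hinj, him⟩ := exists_subset_injOn_image_eq_of_surjOn (f := ker C v)
    {i | CMax v U C i} ((univ.filter fun i => CMax v U C i).image (ker C v)) (by
      intro b hb
      obtain ⟨x, hx, rfl⟩ := mem_image.1 hb
      exact ⟨x, (mem_filter.1 hx).2, rfl⟩)
  have hM' : ∀ i ∈ M, CMax v U C i := fun i hi => hM hi
  have hrep : ∀ i, CMax v U C i → ∃ i' ∈ M, ker C v i = ker C v i' := by
    intro i hi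
    have : ker C v i ∈ M.image (ker C v) := by
      rw [him]
      exact mem_image_of_mem _ (mem_filter.2 ⟨mem_univ _, hi⟩)
    obtain ⟨i', hi', he⟩ := mem_image.1 this
    exact ⟨i', hi', he.symm⟩
  have hlamb : ∀ P ∈ Pats S v U R C, (M.filter fun i => Compat v C i P).card ≤ lam := by
    intro P hP
    rcases laminar hU hC hR hM' hinj (fun i hi => hc i (hM' i hi)) hP s with
      h | ⟨G, hG1, -, κ, Γ, l, hΓ, hl, hd⟩
    · exact h
    exfalso
    obtain ⟨x, hx, hx'⟩ := exists_big_fiber' C G hne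
    have h1 : (C.image G).card ≤ c * s + 1 := by
      refine le_trans (card_le_card ?_) (card_range (c * s + 1)).le
      intro z hz
      obtain ⟨y, hy, rfl⟩ := mem_image.1 hz
      exact mem_range.2 (Nat.lt_succ_of_le (hG1 y hy))
    have hx'' : n ≤ (c * s + 1) * (C.filter fun y => G y = G x).card := by
      rw [← hn]
      exact hx'.trans (Nat.mul_le_mul_right _ h1)
    have hlt : (C.filter fun y => G y = G x).card < n := by
      have h2 : 1 < Γ.card := by
        rw [hΓ]
        exact Nat.one_lt_two_pow (by omega)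
      obtain ⟨γ, hγ, γ', hγ', hγγ⟩ := one_lt_card.1 h2
      obtain ⟨a, ha, b, hb, hab, -⟩ := hd γ hγ γ' hγ' hγγ
      obtain ⟨g, hg, hgab⟩ := lexLt_ne hab
      obtain ⟨m, hm, rfl⟩ := List.mem_map.1 hg
      have hGab : G a ≠ G b := fun h => hgab
        (((Val_mem (hl γ hγ).1 m hm).2 a (hC ha) b (hC hb)).2 (((hl γ hγ).2 a ha b hb).2 h m hm))
      rw [← hn]
      apply card_lt_card
      rw [ssubset_iff_of_subset (filter_subset _ _)]
      by_cases h : G a = G x
      · exact ⟨b, hb, fun h' => hGab (h.trans (mem_filter.1 h').2.symm)⟩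
      · exact ⟨a, ha, fun h' => h (mem_filter.1 h').2⟩
    have h3 := gain (S := S) (v := v) (U := U) (R := R) (C := C) Γ l hd
      (a := (C.filter fun y => G y = G x).card ^ E) (K := K) (T := Pats S v U R C) (by
        intro γ hγ
        have ht : Tied (after v R (l γ)) (C.filter fun y => G y = G x) := by
          intro a ha b hb
          obtain ⟨ha, ha'⟩ := mem_filter.1 ha
          obtain ⟨hb, hb'⟩ := mem_filter.1 hb
          exact ⟨hR a ha b hb, ((hl γ hγ).2 a ha b hb).2 (ha'.trans hb'.symm)⟩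
        refine (ih _ hlt _ rfl ((filter_subset _ _).trans hC) U _ hU
          (hsep.mono (filter_subset _ _)) ht).trans (Nat.mul_le_mul_left _ ?_)
        exact master' hU hC hsep hR (hl γ hγ).1 (filter_subset _ _) hne ht)
      (fun γ _ => filter_subset _ _)
    rw [hΓ] at h3
    have h4 := Nat.pow_le_pow_left hx'' E
    rw [mul_pow] at h4
    have h5 := Nat.mul_le_mul_right ((C.filter fun y => G y = G x).card ^ E) hs
    omega
  have hMcard : M.card ≤ μ := by
    by_contra h
    push Not at h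
    have h1 : ∑ i ∈ M, ((Pats S v U R C).filter (Compat v C i)).card =
        ∑ P ∈ Pats S v U R C, (M.filter fun i => Compat v C i P).card := by
      simp only [card_filter]
      exact sum_comm
    have h2 : ∑ P ∈ Pats S v U R C, (M.filter fun i => Compat v C i P).card ≤
        (Pats S v U R C).card * lam := by
      have := sum_le_card_nsmul _ _ _ hlamb
      simpa using this
    have h3 : ∀ i ∈ M, n ^ E ≤ c ^ E * K * ((Pats S v U R C).filter (Compat v C i)).card := by
      intro i hi
      obtain ⟨x, -, hx⟩ := hbig i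
      have h4 := Nat.pow_le_pow_left (hx.trans (Nat.mul_le_mul_right _ (hc i (hM' i hi)))) E
      rw [mul_pow] at h4
      have h5 := (Nat.le_mul_of_pos_left _ (Nat.two_pow_pos _)).trans (hb i (hM' i hi) x)
      rw [mul_assoc]
      exact h4.trans (Nat.mul_le_mul_left _ h5)
    have h4 : M.card * n ^ E ≤ c ^ E * K * ((Pats S v U R C).card * lam) := by
      calc M.card * n ^ E = ∑ i ∈ M, n ^ E := by simp
        _ ≤ ∑ i ∈ M, c ^ E * K * ((Pats S v U R C).filter (Compat v C i)).card := sum_le_sum h3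
        _ = c ^ E * K * ∑ i ∈ M, ((Pats S v U R C).filter (Compat v C i)).card := by rw [mul_sum]
        _ ≤ _ := Nat.mul_le_mul_left _ (h1 ▸ h2)
    have h5 : μ * n ^ E ≤ μ * (K * (Pats S v U R C).card) := by
      calc μ * n ^ E ≤ M.card * n ^ E := Nat.mul_le_mul_right _ h.le
        _ ≤ _ := h4
        _ = _ := by rw [hμ]; ring
    have hμ0 : 0 < μ := Nat.mul_pos (Nat.two_pow_pos _) (Nat.pow_pos hc0)
    have := Nat.le_of_mul_le_mul_left h5 hμ0
    omega
  let τ : Finset ι → X → ι → ℕ := fun J x i => if i ∈ UJ v U C M J then v i x else 0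
  have hτ : ∀ J x y, τ J x = τ J y ↔ ∀ i ∈ UJ v U C M J, v i x = v i y := by
    intro J x y
    constructor
    · intro h i hi
      have := congrFun h i
      simpa only [τ, if_pos hi] using this
    · intro h
      funext i
      by_cases hi : i ∈ UJ v U C M J
      · simp only [τ, if_pos hi, h i hi]
      · simp only [τ, if_neg hi]
  have hz : ∀ J ⊆ M, ∀ x, (C.filter fun y => τ J y = τ J x).card ≤ Zs (2 * E * c) E J.card := by
    intro J
    induction J using Finset.induction_on with
    | empty =>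
      intro _ x
      rw [card_empty]
      refine card_le_one.2 fun a ha b hb => ?_
      obtain ⟨ha, ha'⟩ := mem_filter.1 ha
      obtain ⟨hb, hb'⟩ := mem_filter.1 hb
      by_contra hab
      obtain ⟨i, hi, hv⟩ := hsep a ha b hb hab
      exact hv ((hτ _ _ _).1 (ha'.trans hb'.symm) i ⟨hi, Or.inr (by simp)⟩)
    | insert j J hjJ ihJ =>
      intro hJ x
      have hjM : j ∈ M := hJ (mem_insert_self _ _)
      have hJM : J ⊆ M := (subset_insert _ _).trans hJ
      have hj := hM' j hjM
      have hZ := ihJ hJM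
      set Z := Zs (2 * E * c) E J.card with hZdef
      rw [card_insert_of_notMem hjJ]
      show _ ≤ Z * (2 * E * c * Z) ^ E
      set Q := C.filter fun y => τ (insert j J) y = τ (insert j J) x with hQdef
      have hQC : Q ⊆ C := filter_subset _ _
      have hsubfib : ∀ T ⊆ C, ∀ y ∈ T, (T.filter fun z => τ J z = τ J y).card ≤ Z :=
        fun T hT y _ => (card_le_card (filter_subset_filter _ hT)).trans (hZ y)
      have hQt : ∀ a ∈ Q, ∀ b ∈ Q, ∀ i ∈ UJ v U C M (insert j J), v i a = v i b :=
        fun a ha b hb => (hτ _ _ _).1 ((mem_filter.1 ha).2.trans (mem_filter.1 hb).2.symm)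
      rcases Q.eq_empty_or_nonempty with hQ0 | ⟨q₀, hq₀⟩
      · rw [hQ0, card_empty]
        exact Nat.zero_le _
      obtain ⟨Q', hQ', hQinj, hQcard⟩ := transversal Q (τ J) (by
        intro y hy
        exact hsubfib Q hQC y hy)
      set D := C.filter fun y => ¬ v j y = v j q₀ with hD
      have hDn : n ≤ 2 * E * D.card := hbal j hj q₀
      have hDne : D.Nonempty := by
        rw [← card_pos]
        by_contra h
        have : D.card = 0 := by omega
        rw [this] at hDn
        omega
      obtain ⟨w, hw, hw'⟩ := exists_big_fiber' D (v j) hDne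
      set C₁ := D.filter fun y => v j y = v j w with hC₁
      have hDC : D ⊆ C := filter_subset _ _
      have hC₁C : C₁ ⊆ C := (filter_subset _ _).trans hDC
      have hDc : D.card ≤ c * C₁.card := hw'.trans (Nat.mul_le_mul_right _
          ((card_le_card (image_subset_image hDC)).trans (hc j hj)))
      obtain ⟨C', hC', hCinj, hCcard⟩ := transversal C₁ (τ J) (by
        intro y hy
        exact hsubfib C₁ hC₁C y hy)
      have hsepJ : ∀ T : Finset X, (∀ x ∈ T, ∀ y ∈ T, τ J x = τ J y → x = y) →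
          Sep v (UJ v U C M J) T := by
        intro T hT a ha b hb hab
        by_contra hcon'
        push Not at hcon'
        exact hab (hT a ha b hb ((hτ _ _ _).2 hcon'))
      have hUJ := UJ_up hU hC hM' hJM
      have hC'lt : C'.card < n := by
        refine (card_le_card (hC'.trans (filter_subset _ _))).trans_lt ?_
        rw [← hn]
        apply card_lt_card
        rw [ssubset_iff_of_subset hDC]
        exact ⟨q₀, hQC hq₀, by simp [hD]⟩
      have h1 := ih _ hC'lt C' rfl ((hC'.trans hC₁C).trans hC) (UJ v U C M J) (after v R []) hUJ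
        (hsepJ C' hCinj) (by
          rw [after_nil]
          exact fun a ha b hb => hR a (hC₁C (hC' ha)) b (hC₁C (hC' hb)))
      have h2 := master hU hUJ (fun i hi => hi.1) hC hsep hR (l₁ := []) trivial
        (hC'.trans hC₁C) (hQ'.trans hQC)
        (by
          rw [after_nil]
          exact fun a ha b hb => hR a (hC₁C (hC' ha)) b (hC₁C (hC' hb)))
        (by
          rw [after_nil]
          exact fun a ha b hb => hR a (hQC (hQ' ha)) b (hQC (hQ' hb)))
        (hsepJ Q' hQinj) (by
          rintro i hi ⟨a, ha, b, hb, hab⟩ q hq g hg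
          have hco : Coarser C v j i := by
            by_contra hco
            refine hab (hQt a (hQ' ha) b (hQ' hb) i ⟨hi.1, ?_⟩)
            rcases hi.2 with h | h
            · exact Or.inl h
            · right
              intro j' hj'
              rcases mem_insert.1 hj' with rfl | hj'
              · exact hco
              · exact h j' hj'
          have hfree : ∀ y ∈ C', v i y ≠ v i q := by
            intro y hy h
            have h3 := hco y (hC₁C (hC' hy)) q (hQC (hQ' hq)) h
            have h4 := hQt q (hQ' hq) q₀ hq₀ j ⟨hj.1, Or.inl ⟨j, hjM, rfl⟩⟩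
            exact (mem_filter.1 (mem_filter.1 (hC' hy)).1).2 (h3.trans h4)
          obtain ⟨g', h1, h2, h3⟩ := relabel_low hg q
          exact ⟨g', h1, fun a ha b hb => h2 a b (hfree a ha) (hfree b hb), fun y _ => h3 y⟩)
      have h3 : (Ext S v U R C []).card ≤ (Pats S v U R C).card := card_filter_le _ _
      have h4 : n ≤ 2 * E * c * Z * C'.card := by
        calc n ≤ 2 * E * D.card := hDn
          _ ≤ 2 * E * (c * (Z * C'.card)) :=
            Nat.mul_le_mul_left _ (hDc.trans (Nat.mul_le_mul_left _ hCcard))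
          _ = _ := by ring
      have h5 := Nat.pow_le_pow_left h4 E
      rw [mul_pow] at h5
      have h6 : n ^ E * Q'.card ≤ (2 * E * c * Z) ^ E * n ^ E := by
        calc n ^ E * Q'.card ≤ (2 * E * c * Z) ^ E *
              (K * (Pats S v (UJ v U C M J) (after v R []) C').card) * Q'.card :=
              Nat.mul_le_mul_right _ (h5.trans (Nat.mul_le_mul_left _ h1))
          _ = (2 * E * c * Z) ^ E *
              (K * ((Pats S v (UJ v U C M J) (after v R []) C').card * Q'.card)) := by ring
          _ ≤ (2 * E * c * Z) ^ E * n ^ E :=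
              Nat.mul_le_mul_left _ ((Nat.mul_le_mul_left _ (h2.trans h3)).trans hcon.le)
      rw [mul_comm _ (n ^ E)] at h6
      have h7 := Nat.le_of_mul_le_mul_left h6 (Nat.pow_pos (by omega))
      exact hQcard.trans (Nat.mul_le_mul_left _ h7)
  have hT : ∀ J ⊆ M, ∃ T ⊆ C, T.Nonempty ∧ n ≤ c ^ J.card * T.card ∧
      ∀ j ∈ J, ∀ x ∈ T, ∀ y ∈ T, v j x = v j y := by
    intro J
    induction J using Finset.induction_on with
    | empty => exact fun _ => ⟨C, Subset.refl _, hne, by simp [hn], by simp⟩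
    | insert j J hjJ ihJ =>
      intro hJ
      obtain ⟨T, hTC, hTne, hTn, hTv⟩ := ihJ ((subset_insert _ _).trans hJ)
      obtain ⟨w, hw, hw'⟩ := exists_big_fiber' T (v j) hTne
      have hTc : T.card ≤ c * (T.filter fun y => v j y = v j w).card :=
        hw'.trans (Nat.mul_le_mul_right _ ((card_le_card (image_subset_image hTC)).trans
          (hc j (hM' j (hJ (mem_insert_self _ _))))))
      refine ⟨T.filter fun y => v j y = v j w, (filter_subset _ _).trans hTC,
        ⟨w, by simp [hw]⟩, ?_, ?_⟩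
      · rw [card_insert_of_notMem hjJ, pow_succ, mul_assoc]
        exact hTn.trans (Nat.mul_le_mul_left _ hTc)
      · intro j' hj' x hx y hy
        obtain ⟨hx, hx'⟩ := mem_filter.1 hx
        obtain ⟨hy, hy'⟩ := mem_filter.1 hy
        rcases mem_insert.1 hj' with rfl | hj'
        · exact hx'.trans hy'.symm
        · exact hTv j' hj' x hx y hy
  obtain ⟨T, hTC, ⟨x, hx⟩, hTn, hTv⟩ := hT M (Subset.refl _)
  have h1 : T ⊆ C.filter fun y => τ M y = τ M x := by
    intro y hy
    refine mem_filter.2 ⟨hTC hy, (hτ _ _ _).2 ?_⟩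
    rintro i ⟨hi, ⟨i', hi', hk⟩ | hi'⟩
    · exact (ker_eq_iff.1 hk y (hTC hy) x (hTC hx)).2 (hTv i' hi' y hy x hx)
    · by_contra hne'
      obtain ⟨j, hj1, hj2⟩ := exists_cmax hi ⟨y, hTC hy, x, hTC hx, hne'⟩
      obtain ⟨j', hj', hk⟩ := hrep j hj2
      exact hi' j' hj' fun a ha b hb h => (ker_eq_iff.1 hk a ha b hb).1 (hj1 a ha b hb h)
  have h2 := (card_le_card h1).trans ((hz M (Subset.refl _) x).trans (Zs_mono hB hMcard))
  have h3 : c ^ M.card ≤ c ^ μ := Nat.pow_le_pow_right hc0 hMcard
  have h4 := hTn.trans (Nat.mul_le_mul h3 h2)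
  omega

end Pool.Agent.P.MP_0a2852_co
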