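import Pool.Agent.P.MP_0a2852_co.Game

/-! In the partition game, sets of at most five points have at least `2 ^ (k - 1)` orders. -/

namespace Pool.Agent.P.MP_0a2852_co

open Finset
open scoped Classical

variable {X ι : Type} {S : Finset X} {v : ι → X → ℕ}

theorem Pats_total {U : Set ι} {R : X → X → Prop} {C : Finset X} (hC : C ⊆ S)
    {P : Finset (X × X)} (hP : P ∈ Pats S v U R C) {x y : X} (hx : x ∈ C) (hy : y ∈ C)
    (hne : x ≠ y) : (x, y) ∈ P ∨ (y, x) ∈ P := by
  obtain ⟨l, h1, h2, rfl⟩ := mem_Pats.1 hP
  have hex : ∃ g ∈ rk l, g x ≠ g y := by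
    by_contra hcon
    push Not at hcon
    refine hne (h2 x hx y hy fun m hm => ?_)
    exact ((Val_mem h1 m hm).2 x (hC hx) y (hC hy)).1 (hcon m.2 (List.mem_map.2 ⟨m, hm, rfl⟩))
  rcases lexLt_total hex with h | h
  · exact Or.inl (mem_pat.2 ⟨hx, hy, h⟩)
  · exact Or.inr (mem_pat.2 ⟨hy, hx, h⟩)

theorem relabel_low {j : ι} {g : X → ℕ} (hg : Exact S v (j, g)) (w : X) :
    ∃ g', Exact S v (j, g') ∧ (∀ x y, v j x ≠ v j w → v j y ≠ v j w → (g' x < g' y ↔ g x < g y)) ∧
      ∀ y, g' w ≤ g' y := by
  refine ⟨fun z => if v j z = v j w then 0 else g z + 1, ?_, ?_, ?_⟩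
  · intro x hx y hy
    have := hg x hx y hy
    simp only at this ⊢
    split_ifs with h1 h2 h2
    · simp [h1, h2]
    · constructor
      · intro h; first | omega | exact h.elim
      · intro h; exact (h2 (h ▸ h1)).elim
    · constructor
      · intro h; first | omega | exact h.elim
      · intro h; exact (h1 (h ▸ h2)).elim
    · rw [← this]; omega
  · intro x y hx hy
    simp [hx, hy]
  · intro y
    simp

theorem relabel_high {j : ι} {g : X → ℕ} (hg : Exact S v (j, g)) (w : X) :
    ∃ g', Exact S v (j, g') ∧ (∀ x y, v j x ≠ v j w → v j y ≠ v j w → (g' x < g' y ↔ g x < g y)) ∧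
      ∀ y ∈ S, g' y ≤ g' w := by
  have hB : ∀ x ∈ S, g x < S.sup g + 1 := fun x hx => Nat.lt_succ_of_le (le_sup (f := g) hx)
  refine ⟨fun z => if v j z = v j w then S.sup g + 1 else g z, ?_, ?_, ?_⟩
  · intro x hx y hy
    have := hg x hx y hy
    have h3 := hB x hx
    have h4 := hB y hy
    simp only at this ⊢
    split_ifs with h1 h2 h2
    · simp [h1, h2]
    · constructor
      · intro h; omega
      · intro h; exact (h2 (h ▸ h1)).elim
    · constructor
      · intro h; omega
      · intro h; exact (h1 (h ▸ h2)).elim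
    · exact this
  · intro x y hx hy
    simp [hx, hy]
  · intro y hy
    have h4 := hB y hy
    simp only [if_true]
    split_ifs
    · exact le_rfl
    · exact h4.le

theorem two_le_image {U : Set ι} {C : Finset X} {i : ι} (hi : CMax v U C i) :
    2 ≤ (C.image (v i)).card := by
  obtain ⟨x, hx, y, hy, hne⟩ := hi.2.1
  exact one_lt_card.2 ⟨_, mem_image_of_mem _ hx, _, mem_image_of_mem _ hy, hne⟩

theorem fiber_lt {U : Set ι} {C : Finset X} {i : ι} (hi : CMax v U C i) (x : X) :
    (C.filter fun y => v i y = v i x).card < C.card := by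
  obtain ⟨a, ha, b, hb, hne⟩ := hi.2.1
  apply card_lt_card
  rw [ssubset_iff_of_subset (filter_subset _ _)]
  by_cases h : v i a = v i x
  · exact ⟨b, hb, fun h' => hne (h.trans (mem_filter.1 h').2.symm)⟩
  · exact ⟨a, ha, fun h' => h (mem_filter.1 h').2⟩

theorem Sep.mono {U : Set ι} {C C' : Finset X} (h : Sep v U C) (hC : C' ⊆ C) : Sep v U C' :=
  fun x hx y hy hne => h x (hC hx) y (hC hy) hne

theorem tied_fiber {R : X → X → Prop} {C : Finset X} {i : ι}
    (h : ∀ x ∈ C, ∀ y ∈ C, R x y ↔ v i x = v i y) (x : X) :
    Tied R (C.filter fun y => v i y = v i x) := by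
  intro a ha b hb
  obtain ⟨ha, ha'⟩ := mem_filter.1 ha
  obtain ⟨hb, hb'⟩ := mem_filter.1 hb
  exact (h a ha b hb).2 (ha'.trans hb'.symm)

theorem small [Finite ι] (n : ℕ) : ∀ C : Finset X, C.card = n → C ⊆ S → C.Nonempty → n ≤ 5 →
    ∀ (U : Set ι) (R : X → X → Prop), Up S v U → Sep v U C → Tied R C →
      2 ^ (n - 1) ≤ (Pats S v U R C).card := by
  induction n using Nat.strong_induction_on with
  | _ n ih =>
  intro C hn hC hne h5 U R hU hsep hR
  by_cases h1 : n ≤ 1
  · have : n - 1 = 0 := by omega
    rw [this]
    exact Pats_pos hU hC hsep hR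
  have hfib : ∀ i, CMax v U C i → ∀ x ∈ C, ∀ R', Tied R' (C.filter fun y => v i y = v i x) →
      2 ^ ((C.filter fun y => v i y = v i x).card - 1) ≤
        (Pats S v U R' (C.filter fun y => v i y = v i x)).card := by
    intro i hi x hx R' hR'
    have hlt := fiber_lt hi x
    exact ih _ (hn ▸ hlt) _ rfl ((filter_subset _ _).trans hC) ⟨x, by simp [hx]⟩ (by omega) U R' hU
      (hsep.mono (filter_subset _ _)) hR'
  have hb : ∀ i, CMax v U C i → ∀ x ∈ C,
      2 ^ ((C.image (v i)).card - 1 + ((C.filter fun y => v i y = v i x).card - 1)) ≤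
        ((Pats S v U R C).filter (Compat v C i)).card := by
    intro i hi x hx
    have := basic (K := 1) (a := 2 ^ ((C.filter fun y => v i y = v i x).card - 1)) hU hC hR hi (by
      intro l hl hl'
      rw [one_mul]
      exact (hfib i hi x hx _ (tied_fiber hl' x)).trans
        (master' hU hC hsep hR hl (filter_subset _ _) hne (tied_fiber hl' x)))
    rwa [one_mul, ← pow_add] at this
  have hsum : ∀ i, CMax v U C i → ∃ x ∈ C,
      n ≤ (C.image (v i)).card + (C.filter fun y => v i y = v i x).card := by
    intro i hi
    obtain ⟨x, hx, hx', -⟩ := exists_big_fiber C (v i) hne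
    refine ⟨x, hx, ?_⟩
    have h2 := two_le_image hi
    have h3 : 0 < (C.filter fun y => v i y = v i x).card := card_pos.2 ⟨x, by simp [hx]⟩
    have hx'' : n ≤ (C.image (v i)).card * (C.filter fun y => v i y = v i x).card := by
      rw [← hn]
      exact hx'
    generalize (C.image (v i)).card = c at *
    generalize (C.filter fun y => v i y = v i x).card = l at *
    by_contra hcon
    have hc : c ≤ 3 := by omega
    have hl : l ≤ 2 := by omega
    interval_cases c <;> interval_cases l <;> omega
  have hb2 : ∀ i, CMax v U C i → 2 ^ (n - 2) ≤ ((Pats S v U R C).filter (Compat v C i)).card := by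
    intro i hi
    obtain ⟨x, hx, hx'⟩ := hsum i hi
    refine le_trans (Nat.pow_le_pow_right (by norm_num) ?_) (hb i hi x hx)
    omega
  obtain ⟨x₀, hx₀, y₀, hy₀, hxy⟩ := one_lt_card.1 (show 1 < C.card by omega)
  obtain ⟨i₀, hi₀, hv₀⟩ := hsep x₀ hx₀ y₀ hy₀ hxy
  obtain ⟨i, -, hi⟩ := exists_cmax hi₀ ⟨x₀, hx₀, y₀, hy₀, hv₀⟩
  obtain ⟨x, hx, hx'⟩ := hsum i hi
  have hc2 := two_le_image hi
  have hl0 : 0 < (C.filter fun y => v i y = v i x).card := card_pos.2 ⟨x, by simp [hx]⟩
  by_cases hcase : n + 1 ≤ (C.image (v i)).card + (C.filter fun y => v i y = v i x).card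
  · refine le_trans (Nat.pow_le_pow_right (by norm_num) ?_)
      ((hb i hi x hx).trans (card_filter_le _ _))
    omega
  have hde : ∃ d ∈ C, ∃ e ∈ C, d ≠ e ∧ v i d = v i e ∧ v i d ≠ v i x := by
    by_contra hcon
    push Not at hcon
    have h2 : (C.filter fun y => ¬ v i y = v i x).card ≤ ((C.image (v i)).erase (v i x)).card := by
      apply card_le_card_of_injOn (v i)
      · intro y hy
        obtain ⟨hy, hy'⟩ := mem_filter.1 hy
        exact mem_erase.2 ⟨hy', mem_image_of_mem _ hy⟩
      · intro a ha b hb hab
        obtain ⟨ha, ha'⟩ := mem_filter.1 ha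
        obtain ⟨hb, hb'⟩ := mem_filter.1 hb
        by_contra hne'
        exact ha' (hcon a ha b hb hne' hab)
    rw [card_erase_of_mem (mem_image_of_mem _ hx)] at h2
    have h3 := card_filter_add_card_filter_not (s := C) (fun y => v i y = v i x)
    omega
  obtain ⟨d, hd, e, he, hde, hvde, hvdx⟩ := hde
  by_cases H : ∃ j ∈ U, v j d ≠ v j e ∧ ∃ a ∈ C.filter (fun y => v i y = v i x),
      ∃ b ∈ C.filter (fun y => v i y = v i x), v j a = v j d ∧ v j b = v j e
  · obtain ⟨j, hj, hjde, a, ha, b, hb', hja, hjb⟩ := H
    obtain ⟨ha, hai⟩ := mem_filter.1 ha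
    obtain ⟨hb', hbi⟩ := mem_filter.1 hb'
    obtain ⟨j', hjj, hj'⟩ := exists_cmax hj ⟨d, hd, e, he, hjde⟩
    have h1a := hjj a ha d hd hja
    have h1b := hjj b hb' e he hjb
    have hab : a ≠ b := by
      rintro rfl
      exact hjde (hja.symm.trans hjb)
    have had : a ≠ d := by
      rintro rfl
      exact hvdx hai
    have hae : a ≠ e := by
      rintro rfl
      exact hvdx (hvde.trans hai)
    have hbd : b ≠ d := by
      rintro rfl
      exact hvdx hbi
    have hbe : b ≠ e := by
      rintro rfl
      exact hvdx (hvde.trans hbi)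
    by_cases hm : v j' d = v j' e
    · have h4 : ({a, b, d, e} : Finset X) ⊆ C.filter fun y => v j' y = v j' d := by
        intro z hz
        simp only [mem_insert, mem_singleton] at hz
        rcases hz with rfl | rfl | rfl | rfl
        · exact mem_filter.2 ⟨ha, h1a⟩
        · exact mem_filter.2 ⟨hb', h1b.trans hm.symm⟩
        · exact mem_filter.2 ⟨hd, rfl⟩
        · exact mem_filter.2 ⟨he, hm.symm⟩
      have h4' := card_le_card h4
      rw [card_insert_of_notMem (by simp [hab, had, hae]),
        card_insert_of_notMem (by simp [hbd, hbe]), card_pair hde] at h4'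
      have := two_le_image hj'
      refine le_trans (Nat.pow_le_pow_right (by norm_num) ?_)
        ((hb j' hj' d hd).trans (card_filter_le _ _))
      omega
    · have hdisj : Disjoint ((Pats S v U R C).filter (Compat v C i))
          ((Pats S v U R C).filter (Compat v C j')) := by
        refine disjoint_left.2 fun P hP hP' => ?_
        obtain ⟨hP, g, hg, hg'⟩ := mem_filter.1 hP
        obtain ⟨-, g', hk, hk'⟩ := mem_filter.1 hP'
        have hlt : ∀ y ∈ C, ∀ z ∈ C, g y < g z → g' y ≤ g' z := by
          intro y hy z hz h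
          have hyz : y ≠ z := by
            rintro rfl
            exact lt_irrefl _ h
          rcases Pats_total hC hP hy hz hyz with h' | h'
          · exact hk' y hy z hz h'
          · exact absurd (hg' z hz y hy h') (not_le.2 h)
        have e1 : g a = g b := (hg a ha b hb').2 (hai.trans hbi.symm)
        have e2 : g d = g e := (hg d hd e he).2 hvde
        have e3 : g a ≠ g d := fun h => hvdx (((hg a ha d hd).1 h).symm.trans hai)
        have e4 : g' a = g' d := (hk a ha d hd).2 h1a
        have e5 : g' b = g' e := (hk b hb' e he).2 h1b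
        have e6 : g' d ≠ g' e := fun h => hm ((hk d hd e he).1 h)
        rcases lt_or_gt_of_ne e3 with h | h
        · have f1 := hlt b hb' d hd (by omega)
          have f2 := hlt a ha e he (by omega)
          omega
        · have f1 := hlt d hd b hb' (by omega)
          have f2 := hlt e he a ha (by omega)
          omega
      have h6 := card_le_card (union_subset (filter_subset (Compat v C i) (Pats S v U R C))
        (filter_subset (Compat v C j') (Pats S v U R C)))
      rw [card_union_of_disjoint hdisj] at h6
      have h7 := hb2 i hi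
      have h8 := hb2 j' hj'
      have h9 : 2 ^ (n - 1) = 2 ^ (n - 2) + 2 ^ (n - 2) := by
        rw [show n - 1 = n - 2 + 1 by omega, pow_succ]
        omega
      omega
  · have hQ : ({d, e} : Finset X) ⊆ C := by
      intro z hz
      simp only [mem_insert, mem_singleton] at hz
      rcases hz with rfl | rfl <;> assumption
    have := basic (K := 1) (a := 2 ^ ((C.filter fun y => v i y = v i x).card - 1) * 2) hU hC hR hi
      (by
        intro l hl hl'
        rw [one_mul]
        refine le_trans ?_ (master hU hU subset_rfl hC hsep hR hl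
          (filter_subset (fun y => v i y = v i x) C) hQ (tied_fiber hl' x) ?_ (hsep.mono hQ) ?_)
        · rw [card_pair hde]
          exact Nat.mul_le_mul_right _ (hfib i hi x hx _ (tied_fiber hl' x))
        · intro y hy z hz
          refine (hl' y (hQ hy) z (hQ hz)).2 ?_
          simp only [mem_insert, mem_singleton] at hy hz
          rcases hy with rfl | rfl <;> rcases hz with rfl | rfl <;> simp [hvde]
        · rintro j hj ⟨y, hy, z, hz, hyz⟩ q hq g hg
          have hjde : v j d ≠ v j e := by
            intro h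
            simp only [mem_insert, mem_singleton] at hy hz
            rcases hy with rfl | rfl <;> rcases hz with rfl | rfl <;> simp [h] at hyz
          have hfree : ∃ w ∈ ({d, e} : Finset X),
              ∀ a ∈ C.filter (fun y => v i y = v i x), v j a ≠ v j w := by
            by_contra hcon
            push Not at hcon
            obtain ⟨a, ha, ha'⟩ := hcon d (by simp)
            obtain ⟨b, hb, hb'⟩ := hcon e (by simp)
            exact H ⟨j, hj, hjde, a, ha, b, hb, ha', hb'⟩
          obtain ⟨w, hw, hw'⟩ := hfree
          by_cases hqw : q = w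
          · obtain ⟨g', h1, h2, h3⟩ := relabel_low hg w
            exact ⟨g', h1, fun a ha b hb => h2 a b (hw' a ha) (hw' b hb),
              fun y _ => hqw ▸ h3 y⟩
          · obtain ⟨g', h1, h2, h3⟩ := relabel_high hg w
            refine ⟨g', h1, fun a ha b hb => h2 a b (hw' a ha) (hw' b hb), fun y hy => ?_⟩
            by_cases hyq : y = q
            · rw [hyq]
            · have hyw : y = w := by
                simp only [mem_insert, mem_singleton] at hy hq hw
                rcases hy with rfl | rfl <;> rcases hq with rfl | rfl <;>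
                  rcases hw with rfl | rfl <;> simp_all
              rw [hyw]
              exact h3 q (hC (hQ hq)))
    rw [one_mul, ← pow_succ, ← pow_add] at this
    refine le_trans (Nat.pow_le_pow_right (by norm_num) ?_) (this.trans (card_filter_le _ _))
    omega

end Pool.Agent.P.MP_0a2852_co
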