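import Mathlib

/-! Small universal families of colourings, by the greedy averaging argument. -/

namespace Pool.Agent.P.MP_0a2852_co

open Finset
open scoped Classical

variable {A σ : Type} [Fintype A] [Fintype σ] {K : ℕ}

theorem sat_count (δ : σ → A × Fin K) (hδ : ∀ i j, (δ i).1 = (δ j).1 → (δ i).2 = (δ j).2) :
    Fintype.card (A → Fin K) ≤ K ^ Fintype.card σ *
      (univ.filter fun φ : A → Fin K => ∀ i, φ (δ i).1 = (δ i).2).card := by
  have h1 : K ^ Fintype.card σ = (univ : Finset (σ → Fin K)).card := by simp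
  rw [h1, ← card_product, ← card_univ]
  apply card_le_card_of_injOn (fun φ : A → Fin K => (fun i => φ (δ i).1,
    fun x => if h : ∃ i, (δ i).1 = x then (δ h.choose).2 else φ x))
  · intro φ _
    simp only [coe_product, coe_univ, coe_filter, mem_univ, true_and, Set.mem_prod, Set.mem_univ,
      Set.mem_ofPred_eq]
    intro i
    have h : ∃ j, (δ j).1 = (δ i).1 := ⟨i, rfl⟩
    rw [dif_pos h]
    exact hδ _ _ h.choose_spec
  · intro φ _ φ' _ h
    obtain ⟨h1, h2⟩ := Prod.mk.inj h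
    funext x
    by_cases hx : ∃ i, (δ i).1 = x
    · obtain ⟨i, rfl⟩ := hx
      exact congrFun h1 i
    · have := congrFun h2 x
      simpa only [dif_neg hx] using this

theorem averaging (hK : 0 < K) (R : Finset (σ → A × Fin K))
    (hR : ∀ δ ∈ R, ∀ i j, (δ i).1 = (δ j).1 → (δ i).2 = (δ j).2) :
    ∃ φ : A → Fin K, R.card ≤ K ^ Fintype.card σ *
      (R.filter fun δ => ∀ i, φ (δ i).1 = (δ i).2).card := by
  by_contra hcon
  push Not at hcon
  have : Nonempty (A → Fin K) := ⟨fun _ => ⟨0, hK⟩⟩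
  have h1 : ∑ φ : A → Fin K, K ^ Fintype.card σ *
      (R.filter fun δ => ∀ i, φ (δ i).1 = (δ i).2).card < ∑ _φ : A → Fin K, R.card :=
    sum_lt_sum_of_nonempty univ_nonempty fun φ _ => hcon φ
  have h2 : ∑ φ : A → Fin K, (R.filter fun δ => ∀ i, φ (δ i).1 = (δ i).2).card =
      ∑ δ ∈ R, (univ.filter fun φ : A → Fin K => ∀ i, φ (δ i).1 = (δ i).2).card := by
    simp only [card_filter]
    exact sum_comm
  rw [← mul_sum, h2, mul_sum] at h1
  have h3 : ∑ _δ ∈ R, Fintype.card (A → Fin K) ≤ ∑ δ ∈ R, K ^ Fintype.card σ *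
      (univ.filter fun φ : A → Fin K => ∀ i, φ (δ i).1 = (δ i).2).card :=
    sum_le_sum fun δ hδ => sat_count δ (hR δ hδ)
  simp only [sum_const, card_univ, smul_eq_mul] at h1 h3
  rw [mul_comm] at h3
  omega

theorem greedy (hK : 0 < K) (m : ℕ) : ∀ R : Finset (σ → A × Fin K),
    (∀ δ ∈ R, ∀ i j, (δ i).1 = (δ j).1 → (δ i).2 = (δ j).2) →
    R.card * (K ^ Fintype.card σ - 1) ^ m < (K ^ Fintype.card σ) ^ m →
    ∃ Φ : Finset (A → Fin K), Φ.card ≤ m ∧ ∀ δ ∈ R, ∃ φ ∈ Φ, ∀ i, φ (δ i).1 = (δ i).2 := by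
  induction m with
  | zero =>
    intro R _ h
    have : R = ∅ := card_eq_zero.1 (by simpa using h)
    exact ⟨∅, le_rfl, by simp [this]⟩
  | succ m ih =>
    intro R hR h
    obtain ⟨φ, hφ⟩ := averaging hK R hR
    set q := K ^ Fintype.card σ with hq
    have hq0 : 0 < q := Nat.pow_pos hK
    have h1 := card_filter_add_card_filter_not (s := R) (fun δ => ∀ i, φ (δ i).1 = (δ i).2)
    set a := (R.filter fun δ => ∀ i, φ (δ i).1 = (δ i).2).card
    set R' := R.filter fun δ => ¬ ∀ i, φ (δ i).1 = (δ i).2 with hR'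
    have h2 : R'.card * q ≤ R.card * (q - 1) := by
      obtain ⟨p, hp⟩ : ∃ p, q = p + 1 := ⟨q - 1, by omega⟩
      rw [hp] at hφ ⊢
      simp only [Nat.add_sub_cancel]
      nlinarith
    obtain ⟨Φ, hΦ, hΦ'⟩ := ih R' (fun δ hδ => hR δ (mem_filter.1 hδ).1) (by
      refine Nat.lt_of_mul_lt_mul_right (a := q) ?_
      calc R'.card * (q - 1) ^ m * q = R'.card * q * (q - 1) ^ m := by ring
        _ ≤ R.card * (q - 1) * (q - 1) ^ m := Nat.mul_le_mul_right _ h2
        _ = R.card * (q - 1) ^ (m + 1) := by ring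
        _ < q ^ (m + 1) := h
        _ = q ^ m * q := by ring)
    refine ⟨insert φ Φ, (card_insert_le _ _).trans (by omega), fun δ hδ => ?_⟩
    by_cases hs : ∀ i, φ (δ i).1 = (δ i).2
    · exact ⟨φ, mem_insert_self _ _, hs⟩
    · obtain ⟨φ', h3, h4⟩ := hΦ' δ (mem_filter.2 ⟨hδ, hs⟩)
      exact ⟨φ', mem_insert_of_mem h3, h4⟩

theorem two_mul_pow_le (p : ℕ) : 2 * p ^ (p + 1) ≤ (p + 1) ^ (p + 1) := by
  have h : ∀ j : ℕ, p ^ (j + 1) + (j + 1) * p ^ j ≤ (p + 1) ^ (j + 1) := by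
    intro j
    induction j with
    | zero => simp
    | succ j ih =>
      calc p ^ (j + 1 + 1) + (j + 1 + 1) * p ^ (j + 1) ≤
            (p ^ (j + 1) + (j + 1) * p ^ j) * (p + 1) := by
            rw [pow_succ p (j + 1), pow_succ p j]
            nlinarith [Nat.zero_le ((j + 1) * p ^ j)]
        _ ≤ (p + 1) ^ (j + 1) * (p + 1) := Nat.mul_le_mul_right _ ih
        _ = _ := (pow_succ _ _).symm
  refine le_trans ?_ (h p)
  rw [pow_succ p p]
  nlinarith [Nat.zero_le (p ^ p)]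

theorem universal (hK : 0 < K) {T : ℕ} (hT : (Fintype.card A * K) ^ Fintype.card σ < 2 ^ T) :
    ∃ Φ : Finset (A → Fin K), Φ.card ≤ K ^ Fintype.card σ * T ∧
      ∀ δ : σ → A × Fin K, (∀ i j, (δ i).1 = (δ j).1 → (δ i).2 = (δ j).2) →
        ∃ φ ∈ Φ, ∀ i, φ (δ i).1 = (δ i).2 := by
  obtain ⟨Φ, h1, h2⟩ := greedy (A := A) (σ := σ) hK (K ^ Fintype.card σ * T)
    (univ.filter fun δ => ∀ i j, (δ i).1 = (δ j).1 → (δ i).2 = (δ j).2)
    (fun δ hδ => (mem_filter.1 hδ).2) (by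
      have hc : (univ.filter fun δ : σ → A × Fin K =>
          ∀ i j, (δ i).1 = (δ j).1 → (δ i).2 = (δ j).2).card < 2 ^ T := by
        refine lt_of_le_of_lt (card_filter_le _ _) ?_
        simpa using hT
      obtain ⟨p, hp⟩ : ∃ p, K ^ Fintype.card σ = p + 1 :=
        ⟨K ^ Fintype.card σ - 1, by have := Nat.pow_pos (n := Fintype.card σ) hK; omega⟩
      rw [hp, Nat.add_sub_cancel]
      have h3 := Nat.pow_le_pow_left (two_mul_pow_le p) T
      rw [mul_pow, ← pow_mul, ← pow_mul] at h3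
      rcases Nat.eq_zero_or_pos (p ^ ((p + 1) * T)) with h4 | h4
      · rw [h4, mul_zero]
        positivity
      · exact (Nat.mul_lt_mul_of_pos_right hc h4).trans_le h3)
  exact ⟨Φ, h1, fun δ hδ => h2 δ (mem_filter.2 ⟨mem_univ _, hδ⟩)⟩

end Pool.Agent.P.MP_0a2852_co
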