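import Pool.Agent.P.MP_0a2852_co.Perm
import Pool.Agent.P.MP_0a2852_co.Small
import Pool.Agent.P.MP_0a2852_co.Univ

/-! The multi-scale family of block-lexicographic orders. -/

namespace Pool.Agent.P.MP_0a2852_co

open Finset
open scoped Classical

section Step

variable {X ι : Type} {S : Finset X} {v : ι → X → ℕ} {v' : ℕ → X → ℕ} {sub : ι → ℕ → ℕ} {D : ℕ}

theorem lexLt_range {F : ℕ → X → ℕ} {x y : X} {u : ℕ} (h : ∀ u' < u, F u' x = F u' y)
    (hu : F u x < F u y) {D : ℕ} (hD : u < D) : lexLt ((List.range D).map F) x y := by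
  induction D with
  | zero => omega
  | succ D ih =>
    rw [List.range_succ, List.map_append, lexLt_append]
    by_cases h1 : u < D
    · exact Or.inl (ih h1)
    · have h2 : u = D := by omega
      subst h2
      right
      constructor
      · intro g hg
        obtain ⟨u', hu', rfl⟩ := List.mem_map.1 hg
        exact h u' (List.mem_range.1 hu')
      · exact Or.inl hu

/-- The comparison of one block: lexicographic over its sub-blocks, whose values are ranked
by `ψ`. -/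
def chunk (v' : ℕ → X → ℕ) (sub : ι → ℕ → ℕ) (D : ℕ) (i : ι) (ψ : ℕ → ℕ) : List (X → ℕ) :=
  (List.range D).map fun u x => ψ (v' (sub i u) x)

theorem one_step (hsub : ∀ i x y, v i x = v i y ↔ ∀ u < D, v' (sub i u) x = v' (sub i u) y)
    (hstab : ∀ i, ∀ u < D, ∀ x ∈ S, ∀ y ∈ S, v' (sub i u) x ≠ v' (sub i u) y →
      ∃ j, (∀ x' ∈ S, ∀ y' ∈ S, v' (sub i u) x' = v' (sub i u) y' → v j x' = v j y') ∧
        v j x ≠ v j y)
    {R : X → X → Prop} {i : ι} {g : X → ℕ} (hok : Ok S v R i) (hg : Exact S v (i, g)) :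
    ∃ (a : ℕ) (h : X → ℕ), (∀ x ∈ S, h x < S.card) ∧
      (∀ x ∈ S, ∀ y ∈ S, v' a x = v' a y → h x = h y) ∧
      ∀ ψ : ℕ → ℕ, (∀ x ∈ S, ψ (v' a x) = h x) → ∀ x ∈ S, ∀ y ∈ S, R x y → g x < g y →
        lexLt (chunk v' sub D i ψ) x y := by
  have hex : ∃ u, u < D ∧ ∃ x ∈ S, ∃ y ∈ S, R x y ∧ v' (sub i u) x ≠ v' (sub i u) y := by
    obtain ⟨x, hx, y, hy, hR, hne⟩ := hok.1
    rw [Ne, hsub] at hne
    push Not at hne
    obtain ⟨u, hu, hne⟩ := hne
    exact ⟨u, hu, x, hx, y, hy, hR, hne⟩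
  obtain ⟨hu, x₁, hx₁, y₁, hy₁, hR₁, hne₁⟩ := Nat.find_spec hex
  set u := Nat.find hex with hudef
  obtain ⟨j, hj, hj'⟩ := hstab i u hu x₁ hx₁ y₁ hy₁ hne₁
  have hji : Coarser S v j i := fun x hx y hy h => hj x hx y hy ((hsub i x y).1 h u hu)
  have hij := hok.2 j hji ⟨x₁, hx₁, y₁, hy₁, hR₁, hj'⟩
  refine ⟨sub i u, fun x => (S.filter fun z => g z < g x).card, ?_, ?_, ?_⟩
  · intro x hx
    apply card_lt_card
    rw [ssubset_iff_of_subset (filter_subset _ _)]
    exact ⟨x, hx, by simp⟩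
  · intro x hx y hy h
    have : g x = g y := (hg x hx y hy).2 (hij x hx y hy (hj x hx y hy h))
    simp only [this]
  · intro ψ hψ x hx y hy hR hlt
    refine lexLt_range (u := u) ?_ ?_ hu
    · intro u' hu'
      have h1 := Nat.find_min hex hu'
      have h2 : v' (sub i u') x = v' (sub i u') y := by
        by_contra hne
        exact h1 ⟨hu'.trans hu, x, hx, y, hy, hR, hne⟩
      simp only [h2]
    · simp only [hψ x hx, hψ y hy]
      apply card_lt_card
      rw [ssubset_iff_of_subset]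
      · exact ⟨x, mem_filter.2 ⟨hx, hlt⟩, by simp⟩
      · intro z hz
        exact mem_filter.2 ⟨(mem_filter.1 hz).1, (mem_filter.1 hz).2.trans hlt⟩

theorem realize [Nonempty ι] (hS : 0 < S.card)
    (hsub : ∀ i x y, v i x = v i y ↔ ∀ u < D, v' (sub i u) x = v' (sub i u) y)
    (hstab : ∀ i, ∀ u < D, ∀ x ∈ S, ∀ y ∈ S, v' (sub i u) x ≠ v' (sub i u) y →
      ∃ j, (∀ x' ∈ S, ∀ y' ∈ S, v' (sub i u) x' = v' (sub i u) y' → v j x' = v j y') ∧
        v j x ≠ v j y) (r : ℕ) :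
    ∀ (l : List (ι × (X → ℕ))) (R : X → X → Prop), Val S v Set.univ R l → l.length ≤ r →
      ∃ (B : Fin r → ι) (a : Fin r → ℕ) (h : Fin r → X → ℕ), (∀ t, ∀ x ∈ S, h t x < S.card) ∧
        (∀ t, ∀ x ∈ S, ∀ y ∈ S, v' (a t) x = v' (a t) y → h t x = h t y) ∧
        ∀ ψ : Fin r → ℕ → ℕ, (∀ t, ∀ x ∈ S, ψ t (v' (a t) x) = h t x) →
          ∀ x ∈ S, ∀ y ∈ S, R x y → lexLt (rk l) x y →
            lexLt (List.ofFn fun t => chunk v' sub D (B t) (ψ t)).flatten x y := by
  have hnil : ∀ (r : ℕ) (R : X → X → Prop),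
      ∃ (B : Fin r → ι) (a : Fin r → ℕ) (h : Fin r → X → ℕ), (∀ t, ∀ x ∈ S, h t x < S.card) ∧
        (∀ t, ∀ x ∈ S, ∀ y ∈ S, v' (a t) x = v' (a t) y → h t x = h t y) ∧
        ∀ ψ : Fin r → ℕ → ℕ, (∀ t, ∀ x ∈ S, ψ t (v' (a t) x) = h t x) →
          ∀ x ∈ S, ∀ y ∈ S, R x y → lexLt (rk ([] : List (ι × (X → ℕ)))) x y →
            lexLt (List.ofFn fun t => chunk v' sub D (B t) (ψ t)).flatten x y :=
    fun r R => ⟨fun _ => Classical.arbitrary ι, fun _ => 0, fun _ _ => 0, fun _ _ _ => hS,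
      fun _ _ _ _ _ _ => rfl, fun _ _ _ _ _ _ _ h => h.elim⟩
  induction r with
  | zero =>
    intro l R _ hl
    have : l = [] := List.length_eq_zero_iff.1 (by omega)
    subst this
    exact hnil 0 R
  | succ r ih =>
    intro l R hv hl
    rcases l with _ | ⟨⟨i, g⟩, l⟩
    · exact hnil _ R
    obtain ⟨-, hok, hg, hv'⟩ := hv
    obtain ⟨B, a, h, h1, h2, h3⟩ := ih l _ hv' (by simpa using hl)
    obtain ⟨a₀, h₀, k1, k2, k3⟩ := one_step hsub hstab hok hg
    refine ⟨Fin.cons i B, Fin.cons a₀ a, Fin.cons h₀ h, ?_, ?_, ?_⟩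
    · intro t
      refine Fin.cases ?_ (fun t => ?_) t
      · simpa using k1
      · simpa using h1 t
    · intro t
      refine Fin.cases ?_ (fun t => ?_) t
      · simpa using k2
      · simpa using h2 t
    · intro ψ hψ x hx y hy hR hlt
      rw [List.ofFn_succ, List.flatten_cons, lexLt_append]
      simp only [Fin.cons_zero, Fin.cons_succ]
      rcases hlt with hlt | ⟨he, hlt⟩
      · exact Or.inl (k3 (ψ 0) (by simpa using hψ 0) x hx y hy hR hlt)
      · have hv : v i x = v i y := (hg x hx y hy).1 he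
        refine Or.inr ⟨?_, h3 (fun t => ψ t.succ) (fun t => by simpa using hψ t.succ) x hx y hy
          ⟨hR, hv⟩ hlt⟩
        intro f hf
        obtain ⟨u, hu, rfl⟩ := List.mem_map.1 hf
        simp only [(hsub i x y).1 hv u (List.mem_range.1 hu)]

end Step

/-- The value of the `j`-th block of `L` binary digits of `x`. -/
def val (L j x : ℕ) : ℕ := x / 2 ^ (j * L) % 2 ^ L

theorem val_lt (L j x : ℕ) : val L j x < 2 ^ L := Nat.mod_lt _ (Nat.two_pow_pos L)

theorem val_eq_iff {L : ℕ} (hL : 0 < L) (j x y : ℕ) :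
    val L j x = val L j y ↔ ∀ p, p / L = j → x.testBit p = y.testBit p := by
  constructor
  · intro h p hp
    have h1 := congrArg (fun z => Nat.testBit z (p % L)) h
    simp only [val, Nat.testBit_mod_two_pow, Nat.testBit_div_two_pow, Nat.mod_lt p hL,
      decide_true, Bool.true_and] at h1
    have h2 : p % L + j * L = p := by
      rw [← hp, mul_comm]
      exact Nat.mod_add_div p L
    rwa [h2] at h1
  · intro h
    apply Nat.eq_of_testBit_eq
    intro i
    simp only [val, Nat.testBit_mod_two_pow, Nat.testBit_div_two_pow]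
    by_cases hi : i < L
    · rw [h (i + j * L) (by rw [Nat.add_mul_div_right _ _ hL, Nat.div_eq_of_lt hi, zero_add])]
    · simp [hi]

theorem val_sub {L D : ℕ} (hL : 0 < L) (hD : 0 < D) (j x y : ℕ) :
    val (L * D) j x = val (L * D) j y ↔ ∀ u < D, val L (j * D + u) x = val L (j * D + u) y := by
  simp only [val_eq_iff (Nat.mul_pos hL hD), val_eq_iff hL]
  constructor
  · intro h u hu p hp
    apply h
    rw [← Nat.div_div_eq_div_mul, hp, add_comm, Nat.add_mul_div_right _ _ hD,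
      Nat.div_eq_of_lt hu, zero_add]
  · intro h p hp
    refine h (p / L % D) (Nat.mod_lt _ hD) p ?_
    rw [← hp, ← Nat.div_div_eq_div_mul, mul_comm]
    exact (Nat.div_add_mod _ _).symm

theorem val_sep {L P x y : ℕ} (hL : 0 < L) (hx : x < 2 ^ (P * L)) (hy : y < 2 ^ (P * L))
    (h : ∀ j < P, val L j x = val L j y) : x = y := by
  apply Nat.eq_of_testBit_eq
  intro p
  by_cases hp : p < P * L
  · exact (val_eq_iff hL _ x y).1 (h (p / L) ((Nat.div_lt_iff_lt_mul hL).2 hp)) p rfl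
  · have h1 : 2 ^ (P * L) ≤ 2 ^ p := Nat.pow_le_pow_right (by norm_num) (not_lt.1 hp)
    rw [Nat.testBit_lt_two_pow (hx.trans_le h1), Nat.testBit_lt_two_pow (hy.trans_le h1)]

/-- The exponents of the scales. -/
def ex (r : ℕ) : ℕ → ℕ
  | 0 => 0
  | d + 1 => r * ex r d + 1

theorem ex_mono {r : ℕ} (hr : 0 < r) : Monotone (ex r) := by
  apply monotone_nat_of_le_succ
  intro d
  show ex r d ≤ r * ex r d + 1
  have := Nat.le_mul_of_pos_left (ex r d) hr
  omega

theorem exists_stable {α : Type} (T : Finset α) (Cl : ℕ → Finset α) (hT : ∀ d, Cl d ⊆ T)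
    (hm : ∀ d ≤ T.card, Cl d ⊆ Cl (d + 1)) : ∃ d ≤ T.card, Cl (d + 1) ⊆ Cl d := by
  by_contra hcon
  push Not at hcon
  have h : ∀ d ≤ T.card + 1, d ≤ (Cl d).card := by
    intro d
    induction d with
    | zero => exact fun _ => Nat.zero_le _
    | succ d ih =>
      intro hd
      have h1 := ih (by omega)
      have h2 : (Cl d).card < (Cl (d + 1)).card :=
        card_lt_card ⟨hm d (by omega), hcon d (by omega)⟩
      omega
  have h1 := h _ le_rfl
  have h2 := card_le_card (hT (T.card + 1))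
  omega

theorem construct {k : ℕ} (hk : 0 < k) : ∃ c A : ℕ, 1 ≤ A ∧ ∀ W : ℕ, 0 < W → ∀ n ≤ 2 ^ W ^ A,
    ∃ P : Finset (Equiv.Perm (Fin n)), P.card ≤ c * W ^ (A - 1) ∧
      ∀ S : Finset (Fin n), S.card = k → ∃ (ι : Type) (_ : Finite ι) (v : ι → Fin n → ℕ),
        Sep v Set.univ S ∧ (Pats S v Set.univ (fun _ _ => True) S).card ≤
          (P.image fun π => orderOf π S).card := by
  set r := k * k with hr
  have hr0 : 0 < r := Nat.mul_pos hk hk
  set N := 2 ^ r with hN
  set A := ex r (N + 1) with hA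
  set s := r * k with hs
  refine ⟨(N + 1) * (k ^ s * (s * (r + k + 1) + 1)), A, Nat.le_add_left _ _, ?_⟩
  intro W hW n hn
  let len : ℕ → ℕ := fun d => W ^ (A - ex r d)
  let Pn : ℕ → ℕ := fun d => W ^ ex r d
  let Dn : ℕ → ℕ := fun d => W ^ (ex r (d + 1) - ex r d)
  have hlen0 : ∀ d, 0 < len d := fun d => Nat.pow_pos hW
  have hP0 : ∀ d, 0 < Pn d := fun d => Nat.pow_pos hW
  have hD0 : ∀ d, 0 < Dn d := fun d => Nat.pow_pos hW
  have hexA : ∀ d ≤ N + 1, ex r d ≤ A := fun d hd => ex_mono hr0 hd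
  have hex1 : ∀ d, ex r d ≤ ex r (d + 1) := fun d => ex_mono hr0 (Nat.le_succ d)
  have hlen : ∀ d ≤ N, len d = len (d + 1) * Dn d := by
    intro d hd
    have h1 := hexA (d + 1) (by omega)
    have h2 := hex1 d
    simp only [len, Dn]
    rw [← pow_add]
    congr 1
    omega
  have hPD : ∀ d, Pn (d + 1) = Pn d * Dn d := by
    intro d
    have h2 := hex1 d
    simp only [Pn, Dn]
    rw [← pow_add]
    congr 1
    omega
  have hPl : ∀ d ≤ N + 1, Pn d * len d = W ^ A := by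
    intro d hd
    have h1 := hexA d hd
    simp only [Pn, len]
    rw [← pow_add]
    congr 1
    omega
  have huniv : ∀ d, ∃ Φ : Finset (Fin r × Fin (2 ^ len (d + 1)) → Fin k),
      Φ.card ≤ k ^ s * (s * (r + k + 1) + 1) * len (d + 1) ∧
      ∀ δ : Fin r × Fin k → (Fin r × Fin (2 ^ len (d + 1))) × Fin k,
        (∀ i j, (δ i).1 = (δ j).1 → (δ i).2 = (δ j).2) → ∃ φ ∈ Φ, ∀ i, φ (δ i).1 = (δ i).2 := by
    intro d
    have hcσ : Fintype.card (Fin r × Fin k) = s := by simp [hs]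
    obtain ⟨Φ, h1, h2⟩ := universal (A := Fin r × Fin (2 ^ len (d + 1))) (σ := Fin r × Fin k) hk
      (T := s * (r + k + len (d + 1)) + 1) (by
        rw [hcσ]
        have h3 : Fintype.card (Fin r × Fin (2 ^ len (d + 1))) * k ≤ 2 ^ (r + k + len (d + 1)) := by
          simp only [Fintype.card_prod, Fintype.card_fin]
          calc r * 2 ^ len (d + 1) * k ≤ 2 ^ r * 2 ^ len (d + 1) * 2 ^ k :=
                Nat.mul_le_mul (Nat.mul_le_mul_right _ Nat.lt_two_pow_self.le)
                  Nat.lt_two_pow_self.le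
            _ = _ := by ring
        refine (Nat.pow_le_pow_left h3 s).trans_lt ?_
        rw [← pow_mul, mul_comm]
        exact Nat.pow_lt_pow_right (by norm_num) (Nat.lt_succ_self _))
    refine ⟨Φ, h1.trans ?_, h2⟩
    rw [hcσ, mul_assoc (k ^ s)]
    refine Nat.mul_le_mul_left _ ?_
    obtain ⟨L, hL⟩ : ∃ L, len (d + 1) = L + 1 := ⟨len (d + 1) - 1, by have := hlen0 (d + 1); omega⟩
    rw [hL]
    nlinarith [Nat.zero_le (s * r * L), Nat.zero_le (s * k * L)]
  choose Φ hΦ hΦ' using huniv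
  let ψ : ∀ d, (Fin r × Fin (2 ^ len (d + 1)) → Fin k) → Fin r → ℕ → ℕ := fun d φ t w =>
    if h : w < 2 ^ len (d + 1) then (φ (t, ⟨w, h⟩) : ℕ) else 0
  let L : ∀ d, (Fin r → Fin (Pn d)) → (Fin r × Fin (2 ^ len (d + 1)) → Fin k) →
      List (Fin n → ℕ) := fun d B φ =>
    (List.ofFn fun t => chunk (fun a (x : Fin n) => val (len (d + 1)) a x)
      (fun (i : Fin (Pn d)) u => i * Dn d + u) (Dn d) (B t) (ψ d φ t)).flatten
  have hperm : ∀ d B φ, ∃ π : Equiv.Perm (Fin n), ∀ x y, lexLt (L d B φ) x y →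
      π.symm x < π.symm y := by
    intro d B φ
    obtain ⟨π, hπ⟩ := exists_perm (L d B φ ++ [fun x : Fin n => (x : ℕ)])
      (fun x y hxy => ⟨fun x => (x : ℕ), by simp, fun h => hxy (Fin.ext h)⟩)
    exact ⟨π, fun x y h => (hπ x y).2 (lexLt_append.2 (Or.inl h))⟩
  choose π hπ using hperm
  refine ⟨(range (N + 1)).biUnion fun d => (univ ×ˢ Φ d).image fun p => π d p.1 p.2, ?_, ?_⟩
  · refine card_biUnion_le.trans ?_
    have h1 : ∀ d ∈ range (N + 1), ((univ ×ˢ Φ d).image fun p => π d p.1 p.2).card ≤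
        k ^ s * (s * (r + k + 1) + 1) * W ^ (A - 1) := by
      intro d hd
      have hd' : d ≤ N := Nat.lt_succ_iff.1 (mem_range.1 hd)
      refine card_image_le.trans ?_
      rw [card_product, card_univ, Fintype.card_fun, Fintype.card_fin, Fintype.card_fin]
      refine (Nat.mul_le_mul_left _ (hΦ d)).trans (le_of_eq ?_)
      have h2 : Pn d ^ r * len (d + 1) = W ^ (A - 1) := by
        have h3 := hexA (d + 1) (by omega)
        have h4 : ex r (d + 1) = ex r d * r + 1 := by rw [mul_comm]; rfl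
        simp only [Pn, len]
        rw [← pow_mul, ← pow_add]
        congr 1
        omega
      rw [← h2]
      ring
    have h2 := sum_le_card_nsmul _ _ _ h1
    rw [card_range, smul_eq_mul] at h2
    refine h2.trans (le_of_eq ?_)
    ring
  intro S hS
  let Cl : ℕ → Finset (Finset (Fin n × Fin n)) := fun d => (S ×ˢ S).powerset.filter fun E =>
    ∀ x ∈ S, ∀ y ∈ S, (x, y) ∉ E → ∃ j < Pn d,
      (∀ x' ∈ S, ∀ y' ∈ S, (x', y') ∈ E → val (len d) j x' = val (len d) j y') ∧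
        val (len d) j x ≠ val (len d) j y
  have hTc : (S ×ˢ S).powerset.card = N := by rw [card_powerset, card_product, hS]
  have hsublt : ∀ d, ∀ j < Pn d, ∀ u < Dn d, j * Dn d + u < Pn (d + 1) := by
    intro d j hj u hu
    rw [hPD]
    have : (j + 1) * Dn d ≤ Pn d * Dn d := Nat.mul_le_mul_right _ hj
    nlinarith
  have hsub : ∀ d ≤ N, ∀ j x y, val (len d) j x = val (len d) j y ↔
      ∀ u < Dn d, val (len (d + 1)) (j * Dn d + u) x = val (len (d + 1)) (j * Dn d + u) y := by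
    intro d hd j x y
    rw [hlen d hd]
    exact val_sub (hlen0 _) (hD0 _) j x y
  obtain ⟨d, hd, hstab⟩ := exists_stable (S ×ˢ S).powerset Cl (fun d => filter_subset _ _) (by
    intro d hd E hE
    rw [hTc] at hd
    obtain ⟨hE1, hE2⟩ := mem_filter.1 hE
    refine mem_filter.2 ⟨hE1, fun x hx y hy hxy => ?_⟩
    obtain ⟨j, hj, h1, h2⟩ := hE2 x hx y hy hxy
    rw [Ne, hsub d hd] at h2
    push Not at h2
    obtain ⟨u, hu, h2⟩ := h2
    exact ⟨j * Dn d + u, hsublt d j hj u hu,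
      fun x' hx' y' hy' h => (hsub d hd j x' y').1 (h1 x' hx' y' hy' h) u hu, h2⟩)
  rw [hTc] at hd
  refine ⟨Fin (Pn d), inferInstance, fun j x => val (len d) j x, ?_, ?_⟩
  · intro x _ y _ hxy
    by_contra hcon
    push Not at hcon
    refine hxy (Fin.ext (val_sep (P := Pn d) (hlen0 d) ?_ ?_ fun j hj => hcon ⟨j, hj⟩ trivial))
    · rw [hPl d (by omega)]
      exact x.2.trans_le hn
    · rw [hPl d (by omega)]
      exact y.2.trans_le hn
  have : Nonempty (Fin (Pn d)) := ⟨⟨0, hP0 d⟩⟩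
  have key : ∀ Q ∈ Pats S (fun (j : Fin (Pn d)) (x : Fin n) => val (len d) j x) Set.univ
      (fun _ _ => True) S, ∃ ρ ∈ (range (N + 1)).biUnion fun d =>
        (univ ×ˢ Φ d).image fun p => π d p.1 p.2,
        ∀ x ∈ S, ∀ y ∈ S, (x, y) ∈ Q → ρ.symm x < ρ.symm y := by
    intro Q hQ
    obtain ⟨l, hl, -, rfl⟩ := mem_Pats.1 hQ
    obtain ⟨B, a, h, h1, h2, h3⟩ := realize (S := S)
      (v := fun (j : Fin (Pn d)) (x : Fin n) => val (len d) j x)
      (v' := fun a (x : Fin n) => val (len (d + 1)) a x)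
      (sub := fun (i : Fin (Pn d)) u => i * Dn d + u) (D := Dn d) (by omega)
      (fun i x y => hsub d hd i x y) (by
        intro i u hu x hx y hy hne
        have hmem : ((S ×ˢ S).filter fun p => val (len (d + 1)) (i * Dn d + u) p.1 =
            val (len (d + 1)) (i * Dn d + u) p.2) ∈ Cl (d + 1) := by
          refine mem_filter.2 ⟨mem_powerset.2 (filter_subset _ _), fun x hx y hy hxy => ?_⟩
          refine ⟨i * Dn d + u, hsublt d i i.2 u hu, fun x' _ y' _ h => (mem_filter.1 h).2, ?_⟩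
          exact fun h => hxy (mem_filter.2 ⟨mem_product.2 ⟨hx, hy⟩, h⟩)
        obtain ⟨j, hj, k1, k2⟩ := (mem_filter.1 (hstab hmem)).2 x hx y hy
          (fun h => hne (mem_filter.1 h).2)
        exact ⟨⟨j, hj⟩, fun x' hx' y' hy' h =>
          k1 x' hx' y' hy' (mem_filter.2 ⟨mem_product.2 ⟨hx', hy'⟩, h⟩), k2⟩)
      r l _ hl ((Val_length hl).trans ((ties_le _).trans (by rw [hS])))
    let e := (S.equivFinOfCardEq hS).symm
    have h1' : ∀ t, ∀ x ∈ S, h t x < k := fun t x hx => (h1 t x hx).trans_eq hS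
    obtain ⟨φ, hφ, hφ'⟩ := hΦ' d (fun p => ((p.1, ⟨val (len (d + 1)) (a p.1) (e p.2 : Fin n),
      val_lt _ _ _⟩), ⟨h p.1 (e p.2), h1' p.1 _ (e p.2).2⟩)) (by
        rintro ⟨t, z⟩ ⟨t', z'⟩ he
        obtain ⟨e1, e2⟩ := Prod.mk.inj he
        simp only at e1
        subst e1
        exact Fin.ext (h2 t _ (e z).2 _ (e z').2 (congrArg Fin.val e2)))
    refine ⟨π d B φ, mem_biUnion.2 ⟨d, mem_range.2 (by omega),
      mem_image.2 ⟨(B, φ), mem_product.2 ⟨mem_univ _, hφ⟩, rfl⟩⟩, fun x hx y hy hxy => ?_⟩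
    refine hπ d B φ x y (h3 (ψ d φ) ?_ x hx y hy trivial (mem_pat.1 hxy).2.2)
    intro t z hz
    have h4 := hφ' (t, e.symm ⟨z, hz⟩)
    simp only [Equiv.apply_symm_apply] at h4
    simp only [ψ, dif_pos (val_lt _ _ _), h4]
  choose! F hF using key
  apply card_le_card_of_injOn (fun Q => orderOf (F Q) S)
  · intro Q hQ
    exact mem_coe.2 (mem_image_of_mem _ (hF Q hQ).1)
  · have hsub' : ∀ Q ∈ Pats S (fun (j : Fin (Pn d)) (x : Fin n) => val (len d) j x) Set.univ
        (fun _ _ => True) S, ∀ Q' ∈ Pats S (fun (j : Fin (Pn d)) (x : Fin n) => val (len d) j x)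
        Set.univ (fun _ _ => True) S, orderOf (F Q) S = orderOf (F Q') S → Q ⊆ Q' := by
      rintro Q hQ Q' hQ' he ⟨x, y⟩ hxy
      have hmem := mem_powerset.1 (mem_filter.1 hQ).1 hxy
      obtain ⟨hx, hy⟩ := mem_product.1 hmem
      have h1 := (hF Q hQ).2 x hx y hy hxy
      have h2 := (orderOf_eq_iff.1 he x hx y hy).1 h1
      have hne : x ≠ y := by
        rintro rfl
        exact lt_irrefl _ h1
      rcases Pats_total (Subset.refl _) hQ' hx hy hne with h | h
      · exact h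
      · exact absurd h2 (not_lt.2 ((hF Q' hQ').2 y hy x hx h).le)
    intro Q hQ Q' hQ' he
    exact Subset.antisymm (hsub' Q hQ Q' hQ' he) (hsub' Q' hQ' Q hQ he.symm)

end Pool.Agent.P.MP_0a2852_co
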