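import Mathlib

/-! Partial shattering of `k`-sets by permutations: the definitions of the problem file. -/

namespace Pool.Agent.P.MP_0a2852_co

open Filter Asymptotics

/-- The order of `X` in `π`: the permutation is written as the arrangement
`π 0, π 1, …, π (n - 1)`, and we keep the elements of `X` in the order in which they occur. -/
def orderOf {n : ℕ} (π : Equiv.Perm (Fin n)) (X : Finset (Fin n)) : List (Fin n) :=
  (List.ofFn π).filter (fun x => x ∈ X)

/-- The family `P` `t`-shatters `X`: its members induce at least `t` distinct orders of `X`. -/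
def Shatters {n : ℕ} (P : Finset (Equiv.Perm (Fin n))) (t : ℕ) (X : Finset (Fin n)) : Prop :=
  t ≤ (P.image (fun π => orderOf π X)).card

/-- `f k t n`: the least size of a family of permutations of `[n]` that `t`-shatters every
`k`-subset of `[n]`. -/
noncomputable def f (k t n : ℕ) : ℕ :=
  sInf {m : ℕ | ∃ P : Finset (Equiv.Perm (Fin n)), P.card = m ∧
    ∀ X : Finset (Fin n), X.card = k → Shatters P t X}

/-- `tau k`: the least `t ∈ [1, k!]` with `f k t n = Ω(log n)`. -/
noncomputable def tau (k : ℕ) : ℕ :=
  sInf {t : ℕ | 1 ≤ t ∧ t ≤ k.factorial ∧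
    (fun n : ℕ => Real.log n) =O[atTop] (fun n : ℕ => (f k t n : ℝ))}

end Pool.Agent.P.MP_0a2852_co
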