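import Mathlib

/-! The abstract partition game: valid sequences of maximal partitions with free rankings. -/

namespace Pool.Agent.P.MP_0a2852_co

open Finset
open scoped Classical

noncomputable section

variable {X ι : Type}

/-- Lexicographic comparison along a list of ranking functions. -/
def lexLt : List (X → ℕ) → X → X → Prop
  | [], _, _ => False
  | g :: l, x, y => g x < g y ∨ (g x = g y ∧ lexLt l x y)

theorem lexLt_asymm {l : List (X → ℕ)} {x y : X} (h : lexLt l x y) : ¬ lexLt l y x := by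
  induction l with
  | nil => exact h.elim
  | cons g l ih =>
    intro h'
    rcases h with h | ⟨h, h1⟩ <;> rcases h' with h' | ⟨h', h2⟩
    · omega
    · omega
    · omega
    · exact ih h1 h2

theorem lexLt_trans {l : List (X → ℕ)} {x y z : X} (h : lexLt l x y) (h' : lexLt l y z) :
    lexLt l x z := by
  induction l with
  | nil => exact h.elim
  | cons g l ih =>
    rcases h with h | ⟨h, h1⟩ <;> rcases h' with h' | ⟨h', h2⟩
    · exact Or.inl (by omega)
    · exact Or.inl (by omega)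
    · exact Or.inl (by omega)
    · exact Or.inr ⟨by omega, ih h1 h2⟩

theorem lexLt_append {l₁ l₂ : List (X → ℕ)} {x y : X} :
    lexLt (l₁ ++ l₂) x y ↔ lexLt l₁ x y ∨ ((∀ g ∈ l₁, g x = g y) ∧ lexLt l₂ x y) := by
  induction l₁ with
  | nil => simp [lexLt]
  | cons g l ih =>
    simp only [List.cons_append, lexLt, ih, List.mem_cons, forall_eq_or_imp]
    tauto

theorem lexLt_total {l : List (X → ℕ)} {x y : X} (h : ∃ g ∈ l, g x ≠ g y) :
    lexLt l x y ∨ lexLt l y x := by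
  induction l with
  | nil => simp at h
  | cons g l ih =>
    rcases lt_trichotomy (g x) (g y) with h1 | h1 | h1
    · exact Or.inl (Or.inl h1)
    · obtain ⟨g', hg', hne⟩ := h
      rcases List.mem_cons.1 hg' with rfl | hg'
      · exact (hne h1).elim
      · rcases ih ⟨g', hg', hne⟩ with h2 | h2
        · exact Or.inl (Or.inr ⟨h1, h2⟩)
        · exact Or.inr (Or.inr ⟨h1.symm, h2⟩)
    · exact Or.inr (Or.inl h1)

theorem lexLt_ne {l : List (X → ℕ)} {x y : X} (h : lexLt l x y) : ∃ g ∈ l, g x ≠ g y := by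
  induction l with
  | nil => exact h.elim
  | cons g l ih =>
    rcases h with h | ⟨_, h⟩
    · exact ⟨g, List.mem_cons_self, h.ne⟩
    · obtain ⟨g', hg', hne⟩ := ih h
      exact ⟨g', List.mem_cons_of_mem _ hg', hne⟩

theorem lexLt_of_le {l : List (X → ℕ)} {x y : X} (h : ∀ g ∈ l, g x ≤ g y)
    (h' : ∃ g ∈ l, g x ≠ g y) : lexLt l x y := by
  induction l with
  | nil => simp at h'
  | cons g l ih =>
    rcases (h g List.mem_cons_self).lt_or_eq with h1 | h1
    · exact Or.inl h1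
    · obtain ⟨g', hg', hne⟩ := h'
      rcases List.mem_cons.1 hg' with rfl | hg'
      · exact (hne h1).elim
      · exact Or.inr ⟨h1, ih (fun g hg => h g (List.mem_cons_of_mem _ hg)) ⟨g', hg', hne⟩⟩

/-- The rankings of a list of moves. -/
abbrev rk (l : List (ι × (X → ℕ))) : List (X → ℕ) := l.map Prod.snd

theorem lexLt_map_congr {l : List (ι × (X → ℕ))} {φ : ι × (X → ℕ) → X → ℕ} {x y : X}
    (h : ∀ m ∈ l, (φ m x < φ m y ↔ m.2 x < m.2 y) ∧ (φ m y < φ m x ↔ m.2 y < m.2 x)) :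
    lexLt (rk (l.map fun m => (m.1, φ m))) x y ↔ lexLt (rk l) x y := by
  induction l with
  | nil => simp [lexLt]
  | cons m l ih =>
    have h1 := h m List.mem_cons_self
    have ih' := ih (fun m hm => h m (List.mem_cons_of_mem _ hm))
    simp only [rk, List.map_cons, lexLt] at ih' ⊢
    rw [ih', h1.1]
    have : φ m x = φ m y ↔ m.2 x = m.2 y := by
      constructor <;> intro h2
      · have h3 : ¬ m.2 x < m.2 y := fun h => by have := h1.1.2 h; omega
        have h4 : ¬ m.2 y < m.2 x := fun h => by have := h1.2.2 h; omega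
        omega
      · have h3 : ¬ φ m x < φ m y := fun h => by have := h1.1.1 h; omega
        have h4 : ¬ φ m y < φ m x := fun h => by have := h1.2.1 h; omega
        omega
    rw [this]

variable (S : Finset X) (v : ι → X → ℕ)

/-- On `S`, the partition given by `j` is coarser than the one given by `i`. -/
def Coarser (j i : ι) : Prop := ∀ x ∈ S, ∀ y ∈ S, v i x = v i y → v j x = v j y

/-- The partition given by `i` separates two points of `S` that are still tied. -/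
def Splits (R : X → X → Prop) (i : ι) : Prop := ∃ x ∈ S, ∃ y ∈ S, R x y ∧ v i x ≠ v i y

/-- `i` is a coarsest partition among those that still split something. -/
def Ok (R : X → X → Prop) (i : ι) : Prop :=
  Splits S v R i ∧ ∀ j, Coarser S v j i → Splits S v R j → Coarser S v i j

/-- The ranking of the move has exactly the classes of its partition. -/
def Exact (m : ι × (X → ℕ)) : Prop := ∀ x ∈ S, ∀ y ∈ S, (m.2 x = m.2 y ↔ v m.1 x = v m.1 y)

/-- The ties that remain after a list of moves. -/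
def after (R : X → X → Prop) (l : List (ι × (X → ℕ))) : X → X → Prop :=
  fun x y => R x y ∧ ∀ m ∈ l, v m.1 x = v m.1 y

/-- Valid lists of moves from the tie relation `R`, using partitions from `U`. -/
def Val (U : Set ι) : (X → X → Prop) → List (ι × (X → ℕ)) → Prop
  | _, [] => True
  | R, m :: l => m.1 ∈ U ∧ Ok S v R m.1 ∧ Exact S v m ∧
      Val U (fun x y => R x y ∧ v m.1 x = v m.1 y) l

/-- The strict order induced on `C`, as a set of pairs. -/
def pat (C : Finset X) (l : List (X → ℕ)) : Finset (X × X) :=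
  (C ×ˢ C).filter fun p => lexLt l p.1 p.2

/-- The linear orders on `C` produced by valid lists. -/
def Pats (U : Set ι) (R : X → X → Prop) (C : Finset X) : Finset (Finset (X × X)) :=
  (C ×ˢ C).powerset.filter fun P => ∃ l, Val S v U R l ∧
    (∀ x ∈ C, ∀ y ∈ C, (∀ m ∈ l, v m.1 x = v m.1 y) → x = y) ∧ P = pat C (rk l)

/-- `U` is closed under passing to coarser partitions. -/
def Up (U : Set ι) : Prop := ∀ i ∈ U, ∀ j, Coarser S v j i → j ∈ U

/-- `U` separates the points of `C`. -/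
def Sep (U : Set ι) (C : Finset X) : Prop := ∀ x ∈ C, ∀ y ∈ C, x ≠ y → ∃ i ∈ U, v i x ≠ v i y

/-- All points of `C` are tied. -/
def Tied (R : X → X → Prop) (C : Finset X) : Prop := ∀ x ∈ C, ∀ y ∈ C, R x y

/-- `i` is a coarsest member of `U` that is not constant on `C`. -/
def CMax (U : Set ι) (C : Finset X) (i : ι) : Prop :=
  i ∈ U ∧ (∃ x ∈ C, ∃ y ∈ C, v i x ≠ v i y) ∧
    ∀ j ∈ U, Coarser C v j i → (∃ x ∈ C, ∃ y ∈ C, v j x ≠ v j y) → Coarser C v i j

/-- The pairs of `C` with the same value of `v i`. -/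
def ker (i : ι) : Finset (X × X) := (S ×ˢ S).filter fun p => v i p.1 = v i p.2

variable {S v}

theorem mem_ker {i : ι} {x y : X} : (x, y) ∈ ker S v i ↔ x ∈ S ∧ y ∈ S ∧ v i x = v i y := by
  simp [ker, and_assoc]

theorem mem_pat {C : Finset X} {l : List (X → ℕ)} {x y : X} :
    (x, y) ∈ pat C l ↔ x ∈ C ∧ y ∈ C ∧ lexLt l x y := by
  simp [pat, and_assoc]

theorem mem_Pats {U : Set ι} {R : X → X → Prop} {C : Finset X} {P : Finset (X × X)} :
    P ∈ Pats S v U R C ↔ ∃ l, Val S v U R l ∧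
      (∀ x ∈ C, ∀ y ∈ C, (∀ m ∈ l, v m.1 x = v m.1 y) → x = y) ∧ P = pat C (rk l) := by
  unfold Pats
  rw [mem_filter]
  constructor
  · exact fun h => h.2
  · rintro ⟨l, h1, h2, rfl⟩
    exact ⟨mem_powerset.2 (filter_subset _ _), l, h1, h2, rfl⟩

theorem Pats_asymm {U : Set ι} {R : X → X → Prop} {C : Finset X} {P : Finset (X × X)}
    (hP : P ∈ Pats S v U R C) {x y : X} (h : (x, y) ∈ P) : (y, x) ∉ P := by
  obtain ⟨l, -, -, rfl⟩ := mem_Pats.1 hP
  intro h'
  exact lexLt_asymm (mem_pat.1 h).2.2 (mem_pat.1 h').2.2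

theorem after_nil (R : X → X → Prop) : after v R [] = R := by
  funext x y; simp [after]

theorem after_cons (R : X → X → Prop) (m : ι × (X → ℕ)) (l : List (ι × (X → ℕ))) :
    after v R (m :: l) = after v (fun x y => R x y ∧ v m.1 x = v m.1 y) l := by
  funext x y; simp [after, and_assoc]

theorem after_append (R : X → X → Prop) (l₁ l₂ : List (ι × (X → ℕ))) :
    after v R (l₁ ++ l₂) = after v (after v R l₁) l₂ := by
  funext x y
  simp only [after, List.mem_append, or_imp, forall_and, and_assoc]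

theorem Val_append {U : Set ι} {R : X → X → Prop} {l₁ l₂ : List (ι × (X → ℕ))} :
    Val S v U R (l₁ ++ l₂) ↔ Val S v U R l₁ ∧ Val S v U (after v R l₁) l₂ := by
  induction l₁ generalizing R with
  | nil => simp [Val, after_nil]
  | cons m l ih => simp only [List.cons_append, Val, ih, after_cons, and_assoc]

theorem Val_mono {U U' : Set ι} (h : U ⊆ U') {R : X → X → Prop} {l : List (ι × (X → ℕ))}
    (hl : Val S v U R l) : Val S v U' R l := by
  induction l generalizing R with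
  | nil => trivial
  | cons m l ih => exact ⟨h hl.1, hl.2.1, hl.2.2.1, ih hl.2.2.2⟩

theorem Val_mem {U : Set ι} {R : X → X → Prop} {l : List (ι × (X → ℕ))}
    (hl : Val S v U R l) : ∀ m ∈ l, m.1 ∈ U ∧ Exact S v m := by
  induction l generalizing R with
  | nil => simp
  | cons m l ih =>
    intro m' hm'
    rcases List.mem_cons.1 hm' with rfl | hm'
    · exact ⟨hl.1, hl.2.2.1⟩
    · exact ih hl.2.2.2 m' hm'

theorem Val_map {U : Set ι} {R : X → X → Prop} {l : List (ι × (X → ℕ))}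
    {φ : ι × (X → ℕ) → X → ℕ} (hl : Val S v U R l) (hφ : ∀ m ∈ l, Exact S v (m.1, φ m)) :
    Val S v U R (l.map fun m => (m.1, φ m)) := by
  induction l generalizing R with
  | nil => trivial
  | cons m l ih =>
    exact ⟨hl.1, hl.2.1, hφ m List.mem_cons_self,
      ih hl.2.2.2 fun m hm => hφ m (List.mem_cons_of_mem _ hm)⟩

/-- The number of tied pairs. -/
def ties (S : Finset X) (R : X → X → Prop) : ℕ := ((S ×ˢ S).filter fun p => R p.1 p.2).card

theorem ties_lt {R : X → X → Prop} {i : ι} (h : Splits S v R i) :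
    ties S (fun x y => R x y ∧ v i x = v i y) < ties S R := by
  obtain ⟨x, hx, y, hy, hR, hne⟩ := h
  apply card_lt_card
  rw [ssubset_iff_of_subset]
  · exact ⟨(x, y), by simp [hx, hy, hR], by simp [hne]⟩
  · intro p hp
    simp only [mem_filter] at hp ⊢
    exact ⟨hp.1, hp.2.1⟩

theorem Val_length {U : Set ι} {R : X → X → Prop} {l : List (ι × (X → ℕ))}
    (hl : Val S v U R l) : l.length ≤ ties S R := by
  induction l generalizing R with
  | nil => simp
  | cons m l ih =>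
    have h1 := ih hl.2.2.2
    have h2 := ties_lt hl.2.1.1
    simp only [List.length_cons]
    omega

theorem ties_le (R : X → X → Prop) : ties S R ≤ S.card * S.card := by
  unfold ties
  rw [← card_product]
  exact card_filter_le _ _

theorem coarser_of_card {i j : ι} (h : Coarser S v j i) (hc : (ker S v j).card ≤ (ker S v i).card) :
    Coarser S v i j := by
  have hsub : ker S v i ⊆ ker S v j := by
    rintro ⟨x, y⟩ hp
    rw [mem_ker] at hp ⊢
    exact ⟨hp.1, hp.2.1, h x hp.1 y hp.2.1 hp.2.2⟩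
  have heq := eq_of_subset_of_card_le hsub hc
  intro x hx y hy hxy
  have : (x, y) ∈ ker S v j := mem_ker.2 ⟨hx, hy, hxy⟩
  rw [← heq] at this
  exact (mem_ker.1 this).2.2

theorem exists_max_coarser [Finite ι] (p : ι → Prop) {i : ι} (hi : p i) :
    ∃ j, Coarser S v j i ∧ p j ∧ ∀ j', Coarser S v j' j → p j' → Coarser S v j j' := by
  obtain ⟨j, hj, hmax⟩ := Set.exists_max_image {j | Coarser S v j i ∧ p j}
    (fun j => (ker S v j).card) (Set.toFinite _) ⟨i, fun _ _ _ _ h => h, hi⟩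
  refine ⟨j, hj.1, hj.2, fun j' h1 h2 => coarser_of_card h1 (hmax j' ⟨?_, h2⟩)⟩
  intro x hx y hy hxy
  exact h1 x hx y hy (hj.1 x hx y hy hxy)

theorem exists_ok [Finite ι] {R : X → X → Prop} {i : ι} (hi : Splits S v R i) :
    ∃ j, Coarser S v j i ∧ Ok S v R j := by
  obtain ⟨j, h1, h2, h3⟩ := exists_max_coarser (S := S) (v := v) (Splits S v R) hi
  exact ⟨j, h1, h2, h3⟩

theorem exists_cmax [Finite ι] {U : Set ι} {C : Finset X} {i : ι} (hi : i ∈ U)
    (hs : ∃ x ∈ C, ∃ y ∈ C, v i x ≠ v i y) : ∃ j, Coarser C v j i ∧ CMax v U C j := by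
  obtain ⟨j, h1, h2, h3⟩ := exists_max_coarser (S := C) (v := v)
    (fun j => j ∈ U ∧ ∃ x ∈ C, ∃ y ∈ C, v j x ≠ v j y) ⟨hi, hs⟩
  exact ⟨j, h1, h2.1, h2.2, fun j' h4 h5 h6 => h3 j' h5 ⟨h4, h6⟩⟩

theorem exact_self (i : ι) : Exact S v (i, v i) := fun _ _ _ _ => Iff.rfl

theorem completion [Finite ι] {U : Set ι} (hU : Up S v U) {C : Finset X} (hC : C ⊆ S)
    (hsep : Sep v U C) (R : X → X → Prop) :
    ∃ l, Val S v U R l ∧ ∀ x ∈ C, ∀ y ∈ C, after v R l x y → x = y := by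
  induction hn : ties S R using Nat.strong_induction_on generalizing R with
  | _ n ih =>
    by_cases h : ∃ x ∈ C, ∃ y ∈ C, R x y ∧ x ≠ y
    · obtain ⟨x, hx, y, hy, hR, hne⟩ := h
      obtain ⟨i, hi, hv⟩ := hsep x hx y hy hne
      obtain ⟨j, hj, hok⟩ := exists_ok (S := S) (v := v) (R := R) ⟨x, hC hx, y, hC hy, hR, hv⟩
      obtain ⟨l, hl, hl'⟩ := ih _ (hn ▸ ties_lt hok.1) _ rfl
      refine ⟨(j, v j) :: l, ⟨hU i hi j hj, hok, exact_self j, hl⟩, ?_⟩
      rw [after_cons]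
      exact hl'
    · refine ⟨[], trivial, fun x hx y hy hR => ?_⟩
      by_contra hne
      exact h ⟨x, hx, y, hy, hR.1, hne⟩

theorem exists_exact {C : Finset X} (hC : C ⊆ S) (i : ι) (h : X → ℕ)
    (hh : ∀ x ∈ C, ∀ y ∈ C, v i x = v i y → h x = h y) :
    ∃ g, Exact S v (i, g) ∧ ∀ x ∈ C, ∀ y ∈ C, h x < h y → g x < g y := by
  let h' : ℕ → ℕ := fun w => if hw : ∃ y ∈ C, v i y = w then h hw.choose else 0
  have hh' : ∀ x ∈ C, h' (v i x) = h x := by
    intro x hx
    have hw : ∃ y ∈ C, v i y = v i x := ⟨x, hx, rfl⟩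
    simp only [h', dif_pos hw]
    exact hh _ hw.choose_spec.1 _ hx hw.choose_spec.2
  let B := S.sup (v i) + 1
  have hB : ∀ x ∈ S, v i x < B := fun x hx => Nat.lt_succ_of_le (le_sup (f := v i) hx)
  refine ⟨fun x => h' (v i x) * B + v i x, ?_, ?_⟩
  · intro x hx y hy
    constructor
    · intro he
      have h1 := congrArg (· % B) he
      simp only [Nat.mul_add_mod_self_right, Nat.mod_eq_of_lt (hB x hx),
        Nat.mod_eq_of_lt (hB y hy)] at h1
      exact h1
    · intro he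
      simp only at he ⊢
      rw [he]
  · intro x hx y hy hlt
    simp only [hh' x hx, hh' y hy]
    have h1 := hB x (hC hx)
    have h2 : (h x + 1) * B ≤ h y * B := Nat.mul_le_mul_right _ hlt
    nlinarith

theorem cstep [Finite ι] {U : Set ι} (hU : Up S v U) {C : Finset X} (hC : C ⊆ S) {i : ι}
    (hi : CMax v U C i) (h : X → ℕ) (hh : ∀ x ∈ C, ∀ y ∈ C, v i x = v i y → h x = h y)
    (R : X → X → Prop) (hs : ∃ x ∈ C, ∃ y ∈ C, R x y ∧ v i x ≠ v i y) :
    ∃ (l : List (ι × (X → ℕ))) (g : X → ℕ), Val S v U R l ∧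
      (∀ x ∈ C, ∀ y ∈ C, (∀ m ∈ l, v m.1 x = v m.1 y) ↔ v i x = v i y) ∧
      (∀ x ∈ C, ∀ y ∈ C, g x = g y ↔ v i x = v i y) ∧
      (∀ x ∈ C, ∀ y ∈ C, h x < h y → g x < g y) ∧
      (∀ x ∈ C, ∀ y ∈ C, lexLt (rk l) x y ↔ g x < g y) := by
  induction hn : ties S R using Nat.strong_induction_on generalizing R with
  | _ n ih =>
    obtain ⟨x₀, hx₀, y₀, hy₀, hR₀, hv₀⟩ := hs
    obtain ⟨j, hj, hok⟩ := exists_ok (S := S) (v := v) (R := R) (i := i)
      ⟨x₀, hC hx₀, y₀, hC hy₀, hR₀, hv₀⟩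
    have hjU : j ∈ U := hU i hi.1 j hj
    have hjC : Coarser C v j i := fun x hx y hy h => hj x (hC hx) y (hC hy) h
    by_cases hc : ∃ x ∈ C, ∃ y ∈ C, v j x ≠ v j y
    · have hij : Coarser C v i j := hi.2.2 j hjU hjC hc
      obtain ⟨g, hg, hg'⟩ := exists_exact (v := v) hC j h
        (fun x hx y hy he => hh x hx y hy (hij x hx y hy he))
      refine ⟨[(j, g)], g, ⟨hjU, hok, hg, trivial⟩, ?_, ?_, hg', ?_⟩
      · intro x hx y hy
        simp only [List.mem_singleton, forall_eq]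
        exact ⟨hij x hx y hy, hjC x hx y hy⟩
      · intro x hx y hy
        rw [hg x (hC hx) y (hC hy)]
        exact ⟨hij x hx y hy, hjC x hx y hy⟩
      · intro x hx y hy
        simp [rk, lexLt]
    · push Not at hc
      obtain ⟨l, g, h1, h2, h3, h4, h5⟩ := ih _ (hn ▸ ties_lt hok.1)
        (fun x y => R x y ∧ v j x = v j y) ⟨x₀, hx₀, y₀, hy₀, ⟨hR₀, hc _ hx₀ _ hy₀⟩, hv₀⟩ rfl
      refine ⟨(j, v j) :: l, g, ⟨hjU, hok, exact_self j, h1⟩, ?_, h3, h4, ?_⟩
      · intro x hx y hy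
        simp only [List.mem_cons, forall_eq_or_imp]
        rw [← h2 x hx y hy]
        exact ⟨fun h => h.2, fun h => ⟨hc x hx y hy, h⟩⟩
      · intro x hx y hy
        rw [← h5 x hx y hy]
        simp [rk, lexLt, hc x hx y hy]

/-- The orders that extend the weak order produced by `l`. -/
def Ext (S : Finset X) (v : ι → X → ℕ) (U : Set ι) (R : X → X → Prop) (C : Finset X)
    (l : List (ι × (X → ℕ))) : Finset (Finset (X × X)) :=
  (Pats S v U R C).filter fun P => ∀ x ∈ C, ∀ y ∈ C, lexLt (rk l) x y → (x, y) ∈ P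

theorem master [Finite ι] {U U' : Set ι} (hU : Up S v U) (hU' : Up S v U') (hUU : U' ⊆ U)
    {C : Finset X} (hC : C ⊆ S) (hsep : Sep v U C) {R : X → X → Prop} (hR : Tied R C)
    {l₁ : List (ι × (X → ℕ))} (hl₁ : Val S v U R l₁) {C₁ Q : Finset X} (hC₁ : C₁ ⊆ C) (hQ : Q ⊆ C)
    (ht₁ : Tied (after v R l₁) C₁) (htQ : Tied (after v R l₁) Q) (hsQ : Sep v U' Q)
    (hind : ∀ i ∈ U', (∃ x ∈ Q, ∃ y ∈ Q, v i x ≠ v i y) → ∀ q ∈ Q, ∀ g, Exact S v (i, g) →
      ∃ g', Exact S v (i, g') ∧ (∀ x ∈ C₁, ∀ y ∈ C₁, g' x < g' y ↔ g x < g y) ∧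
        ∀ y ∈ Q, g' q ≤ g' y) :
    (Pats S v U' (after v R l₁) C₁).card * Q.card ≤ (Ext S v U R C l₁).card := by
  have key : ∀ p ∈ Pats S v U' (after v R l₁) C₁ ×ˢ Q, ∃ P ∈ Ext S v U R C l₁,
      P.filter (fun z => z.1 ∈ C₁ ∧ z.2 ∈ C₁) = p.1 ∧ ∀ y ∈ Q, y ≠ p.2 → (p.2, y) ∈ P := by
    rintro ⟨P₁, q⟩ hp
    obtain ⟨hP₁, hq⟩ := mem_product.1 hp
    obtain ⟨l₂, hv₂, hs₂, rfl⟩ := mem_Pats.1 hP₁
    obtain ⟨l₃, hv₃, hs₃⟩ := completion hU' (hQ.trans hC) hsQ (after v (after v R l₁) l₂)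
    have hv₂₃ : Val S v U' (after v R l₁) (l₂ ++ l₃) := Val_append.2 ⟨hv₂, hv₃⟩
    have hφ : ∀ m : ι × (X → ℕ), ∃ g' : X → ℕ, m ∈ l₂ ++ l₃ → Exact S v (m.1, g') ∧
        (∀ x ∈ C₁, ∀ y ∈ C₁, g' x < g' y ↔ m.2 x < m.2 y) ∧ ∀ y ∈ Q, g' q ≤ g' y := by
      intro m
      by_cases hm : m ∈ l₂ ++ l₃
      · obtain ⟨hmU, hme⟩ := Val_mem hv₂₃ m hm
        by_cases hsp : ∃ x ∈ Q, ∃ y ∈ Q, v m.1 x ≠ v m.1 y
        · obtain ⟨g', hg'⟩ := hind m.1 hmU hsp q hq m.2 hme
          exact ⟨g', fun _ => hg'⟩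
        · push Not at hsp
          refine ⟨m.2, fun _ => ⟨hme, fun _ _ _ _ => Iff.rfl, fun y hy => ?_⟩⟩
          exact ((hme q (hC (hQ hq)) y (hC (hQ hy))).2 (hsp q hq y hy)).le
      · exact ⟨m.2, fun h => (hm h).elim⟩
    choose φ hφ using hφ
    set l' := (l₂ ++ l₃).map fun m => (m.1, φ m) with hl'
    have hv' : Val S v U (after v R l₁) l' :=
      Val_mono hUU (Val_map hv₂₃ fun m hm => (hφ m hm).1)
    obtain ⟨l₄, hv₄, hs₄⟩ := completion hU hC hsep (after v (after v R l₁) l')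
    have hvall : Val S v U R (l₁ ++ (l' ++ l₄)) := Val_append.2 ⟨hl₁, Val_append.2 ⟨hv', hv₄⟩⟩
    have htie : ∀ x ∈ C, ∀ y ∈ C, after v R l₁ x y → ∀ g ∈ rk l₁, g x = g y := by
      intro x hx y hy h g hg
      obtain ⟨m, hm, rfl⟩ := List.mem_map.1 hg
      exact ((Val_mem hl₁ m hm).2 x (hC hx) y (hC hy)).2 (h.2 m hm)
    have hmain : ∀ x ∈ C, ∀ y ∈ C, after v R l₁ x y → lexLt (rk l') x y →
        lexLt (rk (l₁ ++ (l' ++ l₄))) x y := by
      intro x hx y hy h h'
      simp only [rk, List.map_append]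
      exact lexLt_append.2 (Or.inr ⟨htie x hx y hy h, lexLt_append.2 (Or.inl h')⟩)
    have hC₁' : ∀ x ∈ C₁, ∀ y ∈ C₁, lexLt (rk l₂) x y → lexLt (rk l') x y := by
      intro x hx y hy h
      rw [hl', lexLt_map_congr]
      · simp only [rk, List.map_append]
        exact lexLt_append.2 (Or.inl h)
      · intro m hm
        exact ⟨(hφ m hm).2.1 x hx y hy, (hφ m hm).2.1 y hy x hx⟩
    refine ⟨pat C (rk (l₁ ++ (l' ++ l₄))), ?_, ?_, ?_⟩
    · refine mem_filter.2 ⟨mem_Pats.2 ⟨_, hvall, ?_, rfl⟩, ?_⟩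
      · intro x hx y hy h
        refine hs₄ x hx y hy ⟨⟨⟨hR x hx y hy, fun m hm => h m ?_⟩, fun m hm => h m ?_⟩,
          fun m hm => h m ?_⟩ <;> simp [hm]
      · intro x hx y hy h
        refine mem_pat.2 ⟨hx, hy, ?_⟩
        simp only [rk, List.map_append]
        exact lexLt_append.2 (Or.inl h)
    · ext ⟨x, y⟩
      simp only [mem_filter, mem_pat]
      constructor
      · rintro ⟨⟨-, -, h⟩, hx, hy⟩
        refine ⟨hx, hy, ?_⟩
        have hne : x ≠ y := by
          rintro rfl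
          exact lexLt_asymm h h
        have hex : ∃ g ∈ rk l₂, g x ≠ g y := by
          by_contra hcon
          push Not at hcon
          refine hne (hs₂ x hx y hy fun m hm => ?_)
          exact ((Val_mem hv₂ m hm).2 x (hC (hC₁ hx)) y (hC (hC₁ hy))).1
            (hcon m.2 (List.mem_map.2 ⟨m, hm, rfl⟩))
        rcases lexLt_total hex with h1 | h1
        · exact h1
        · exact (lexLt_asymm h (hmain y (hC₁ hy) x (hC₁ hx) (ht₁ y hy x hx)
            (hC₁' y hy x hx h1))).elim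
      · rintro ⟨hx, hy, h⟩
        exact ⟨⟨hC₁ hx, hC₁ hy, hmain x (hC₁ hx) y (hC₁ hy) (ht₁ x hx y hy) (hC₁' x hx y hy h)⟩,
          hx, hy⟩
    · intro y hy hne
      refine mem_pat.2 ⟨hQ hq, hQ hy, hmain q (hQ hq) y (hQ hy) (htQ q hq y hy) ?_⟩
      apply lexLt_of_le
      · intro g hg
        obtain ⟨m', hm', rfl⟩ := List.mem_map.1 hg
        obtain ⟨m, hm, rfl⟩ := List.mem_map.1 hm'
        exact (hφ m hm).2.2 y hy
      · by_contra hcon
        push Not at hcon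
        have hall : ∀ m ∈ l₂ ++ l₃, v m.1 q = v m.1 y := by
          intro m hm
          refine ((hφ m hm).1 q (hC (hQ hq)) y (hC (hQ hy))).1 (hcon (φ m) ?_)
          exact List.mem_map.2 ⟨(m.1, φ m), List.mem_map.2 ⟨m, hm, rfl⟩, rfl⟩
        refine hne (hs₃ q hq y hy ⟨⟨htQ q hq y hy, fun m hm => hall m ?_⟩,
          fun m hm => hall m ?_⟩).symm <;> simp [hm]
  choose! F hF using key
  rw [← card_product]
  refine card_le_card_of_injOn F (fun p hp => (hF p hp).1) ?_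
  rintro ⟨P₁, q⟩ hp ⟨P₂, q'⟩ hp' he
  have h1 := hF _ hp
  have h2 := hF _ hp'
  have hq : q ∈ Q := (mem_product.1 hp).2
  have hq' : q' ∈ Q := (mem_product.1 hp').2
  refine Prod.ext ?_ ?_
  · rw [← h1.2.1, ← h2.2.1, he]
  · by_contra hne
    have h3 := h1.2.2 q' hq' (Ne.symm hne)
    have h4 := h2.2.2 q hq hne
    rw [← he] at h4
    exact Pats_asymm (mem_filter.1 h1.1).1 h3 h4

theorem master' [Finite ι] {U : Set ι} (hU : Up S v U)
    {C : Finset X} (hC : C ⊆ S) (hsep : Sep v U C) {R : X → X → Prop} (hR : Tied R C)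
    {l₁ : List (ι × (X → ℕ))} (hl₁ : Val S v U R l₁) {C₁ : Finset X} (hC₁ : C₁ ⊆ C)
    (hne : C.Nonempty) (ht₁ : Tied (after v R l₁) C₁) :
    (Pats S v U (after v R l₁) C₁).card ≤ (Ext S v U R C l₁).card := by
  obtain ⟨q, hq⟩ := hne
  have := master hU hU subset_rfl hC hsep hR hl₁ hC₁ (singleton_subset_iff.2 hq) ht₁
    (by
      intro x hx y hy
      rw [mem_singleton] at hx hy
      subst hx hy
      exact ⟨hR _ hq _ hq, fun _ _ => rfl⟩)
    (by
      intro x hx y hy hxy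
      rw [mem_singleton] at hx hy
      exact (hxy (hx.trans hy.symm)).elim)
    (by
      rintro i - ⟨x, hx, y, hy, hxy⟩
      rw [mem_singleton] at hx hy
      subst hx hy
      exact (hxy rfl).elim)
  simpa using this

theorem gain {U : Set ι} {R : X → X → Prop} {C : Finset X} {κ : Type} (Γ : Finset κ)
    (l : κ → List (ι × (X → ℕ)))
    (hd : ∀ γ ∈ Γ, ∀ γ' ∈ Γ, γ ≠ γ' →
      ∃ x ∈ C, ∃ y ∈ C, lexLt (rk (l γ)) x y ∧ lexLt (rk (l γ')) y x)
    {a K : ℕ} (ha : ∀ γ ∈ Γ, a ≤ K * (Ext S v U R C (l γ)).card)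
    {T : Finset (Finset (X × X))} (hT : ∀ γ ∈ Γ, Ext S v U R C (l γ) ⊆ T) :
    Γ.card * a ≤ K * T.card := by
  have h1 : (Γ.biUnion fun γ => Ext S v U R C (l γ)).card =
      ∑ γ ∈ Γ, (Ext S v U R C (l γ)).card := by
    apply card_biUnion
    intro γ hγ γ' hγ' hne
    obtain ⟨x, hx, y, hy, h1, h2⟩ := hd γ hγ γ' hγ' hne
    refine disjoint_left.2 fun P hP hP' => ?_
    obtain ⟨hP, h3⟩ := mem_filter.1 hP
    obtain ⟨-, h4⟩ := mem_filter.1 hP'
    exact Pats_asymm hP (h3 x hx y hy h1) (h4 y hy x hx h2)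
  have h2 : (Γ.biUnion fun γ => Ext S v U R C (l γ)).card ≤ T.card :=
    card_le_card (biUnion_subset.2 hT)
  calc Γ.card * a = ∑ γ ∈ Γ, a := by simp
    _ ≤ ∑ γ ∈ Γ, K * (Ext S v U R C (l γ)).card := sum_le_sum ha
    _ = K * ∑ γ ∈ Γ, (Ext S v U R C (l γ)).card := by rw [mul_sum]
    _ ≤ K * T.card := Nat.mul_le_mul_left _ (h1 ▸ h2)

/-- The classes of `v i` are intervals of the order `P`. -/
def Compat (v : ι → X → ℕ) (C : Finset X) (i : ι) (P : Finset (X × X)) : Prop :=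
  ∃ g : X → ℕ, (∀ x ∈ C, ∀ y ∈ C, g x = g y ↔ v i x = v i y) ∧
    ∀ x ∈ C, ∀ y ∈ C, (x, y) ∈ P → g x ≤ g y

theorem basic [Finite ι] {U : Set ι} (hU : Up S v U) {C : Finset X} (hC : C ⊆ S)
    {R : X → X → Prop} (hR : Tied R C) {i : ι} (hi : CMax v U C i) {a K : ℕ}
    (ha : ∀ l, Val S v U R l → (∀ x ∈ C, ∀ y ∈ C, after v R l x y ↔ v i x = v i y) →
      a ≤ K * (Ext S v U R C l).card) :
    2 ^ ((C.image (v i)).card - 1) * a ≤ K * ((Pats S v U R C).filter (Compat v C i)).card := by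
  obtain ⟨x₀, hx₀, y₀, hy₀, hne₀⟩ := hi.2.1
  have hstep := fun T : Finset ℕ => cstep hU hC hi
    (fun x => if v i x ∈ T then 0 else if v i x = v i x₀ then 1 else 2)
    (fun x _ y _ h => by simp only [h]) R ⟨x₀, hx₀, y₀, hy₀, hR _ hx₀ _ hy₀, hne₀⟩
  choose l g h1 h2 h3 h4 h5 using hstep
  have hcard : ((C.image (v i)).erase (v i x₀)).powerset.card = 2 ^ ((C.image (v i)).card - 1) := by
    rw [card_powerset, card_erase_of_mem (mem_image_of_mem _ hx₀)]
  rw [← hcard]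
  have hlt : ∀ T ∈ ((C.image (v i)).erase (v i x₀)).powerset, ∀ x ∈ C, v i x ≠ v i x₀ →
      (v i x ∈ T → lexLt (rk (l T)) x x₀) ∧ (v i x ∉ T → lexLt (rk (l T)) x₀ x) := by
    intro T hT x hx hne
    have h0 : v i x₀ ∉ T := fun h => by simpa using mem_powerset.1 hT h
    constructor
    · intro h
      exact (h5 T x hx x₀ hx₀).2 (h4 T x hx x₀ hx₀ (by simp [h, h0]))
    · intro h
      exact (h5 T x₀ hx₀ x hx).2 (h4 T x₀ hx₀ x hx (by simp [h, h0, hne]))
  refine gain (S := S) (v := v) (U := U) (R := R) (C := C) _ l ?_ ?_ ?_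
  · intro T hT T' hT' hne
    have : ∃ w, (w ∈ T ∧ w ∉ T') ∨ (w ∉ T ∧ w ∈ T') := by
      by_contra hcon
      push Not at hcon
      apply hne
      ext w
      have := hcon w
      tauto
    obtain ⟨w, hw | hw⟩ := this
    · obtain ⟨hw1, hw2⟩ := mem_erase.1 (mem_powerset.1 hT hw.1)
      obtain ⟨x, hx, rfl⟩ := mem_image.1 hw2
      exact ⟨x, hx, x₀, hx₀, (hlt T hT x hx hw1).1 hw.1, (hlt T' hT' x hx hw1).2 hw.2⟩
    · obtain ⟨hw1, hw2⟩ := mem_erase.1 (mem_powerset.1 hT' hw.2)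
      obtain ⟨x, hx, rfl⟩ := mem_image.1 hw2
      exact ⟨x₀, hx₀, x, hx, (hlt T hT x hx hw1).2 hw.1, (hlt T' hT' x hx hw1).1 hw.2⟩
  · intro T _
    refine ha (l T) (h1 T) fun x hx y hy => ?_
    rw [← h2 T x hx y hy]
    exact ⟨fun h => h.2, fun h => ⟨hR x hx y hy, h⟩⟩
  · intro T _ P hP
    obtain ⟨hP, hP'⟩ := mem_filter.1 hP
    refine mem_filter.2 ⟨hP, g T, h3 T, fun x hx y hy hxy => ?_⟩
    by_contra hlt
    exact Pats_asymm hP hxy (hP' y hy x hx ((h5 T y hy x hx).2 (not_le.1 hlt)))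

theorem Pats_pos [Finite ι] {U : Set ι} (hU : Up S v U) {C : Finset X} (hC : C ⊆ S)
    (hsep : Sep v U C) {R : X → X → Prop} (hR : Tied R C) : 0 < (Pats S v U R C).card := by
  obtain ⟨l, h1, h2⟩ := completion hU hC hsep R
  exact card_pos.2 ⟨_, mem_Pats.2 ⟨l, h1, fun x hx y hy h => h2 x hx y hy ⟨hR x hx y hy, h⟩, rfl⟩⟩

theorem exists_big_fiber {β : Type} [DecidableEq β] (T : Finset X) (f : X → β) (hT : T.Nonempty) :
    ∃ x ∈ T, T.card ≤ (T.image f).card * (T.filter fun y => f y = f x).card ∧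
      ∀ z ∈ T, (T.filter fun y => f y = f z).card ≤ (T.filter fun y => f y = f x).card := by
  obtain ⟨x, hx, hmax⟩ := exists_max_image T (fun x => (T.filter fun y => f y = f x).card) hT
  refine ⟨x, hx, ?_, hmax⟩
  rw [mul_comm]
  apply card_le_mul_card_image
  intro b hb
  obtain ⟨z, hz, rfl⟩ := mem_image.1 hb
  exact hmax z hz

end

end Pool.Agent.P.MP_0a2852_co
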