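import Pool.Agent.P.MP_0a2852_co.Construct
import Pool.Agent.P.MP_0a2852_co.Big

/-! From the partition game to bounds on `tau`. -/

namespace Pool.Agent.P.MP_0a2852_co

open Finset Filter Asymptotics

theorem not_isBigO {k t : ℕ} (hk : 0 < k)
    (h : ∀ (X ι : Type) [Finite ι] (S : Finset X) (v : ι → X → ℕ), S.card = k →
      Sep v Set.univ S → t ≤ (Pats S v Set.univ (fun _ _ => True) S).card) :
    ¬ (fun n : ℕ => Real.log n) =O[atTop] fun n : ℕ => (f k t n : ℝ) := by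
  intro hO
  obtain ⟨c, A, hA, hc⟩ := construct hk
  obtain ⟨C, hC0, hC⟩ := hO.exists_pos
  obtain ⟨N₀, hN₀⟩ := eventually_atTop.1 hC.bound
  obtain ⟨W₀, hW₀⟩ := exists_nat_gt (C * c / Real.log 2)
  set W := W₀ + N₀ + 1 with hW
  have hW0 : 0 < W := by omega
  obtain ⟨P, hP, hP'⟩ := hc W hW0 (2 ^ W ^ A) le_rfl
  have h1 : f k t (2 ^ W ^ A) ≤ c * W ^ (A - 1) := by
    refine (f_le fun S hS => ?_).trans hP
    obtain ⟨ι, _, v, h2, h3⟩ := hP' S hS
    exact (h _ ι S v hS h2).trans h3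
  have h2 : N₀ ≤ 2 ^ W ^ A := by
    have h3 : W ≤ W ^ A := Nat.le_self_pow (by omega) W
    have h4 : W ^ A < 2 ^ W ^ A := Nat.lt_two_pow_self
    omega
  have h3 := hN₀ _ h2
  rw [Real.norm_of_nonneg (Real.log_natCast_nonneg _), Real.norm_of_nonneg (by positivity)] at h3
  have h4 : ((f k t (2 ^ W ^ A) : ℕ) : ℝ) ≤ c * (W : ℝ) ^ (A - 1) := by exact_mod_cast h1
  have h5 : Real.log ((2 ^ W ^ A : ℕ) : ℝ) = (W : ℝ) ^ (A - 1) * (W * Real.log 2) := by
    rw [Nat.cast_pow, Real.log_pow, Nat.cast_pow, ← mul_assoc, ← pow_succ,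
      Nat.sub_add_cancel hA]
    norm_num
  have hl : 0 < Real.log 2 := Real.log_pos (by norm_num)
  have h6 : C * c < W * Real.log 2 := by
    rw [div_lt_iff₀ hl] at hW₀
    have : (W₀ : ℝ) ≤ W := by exact_mod_cast (show W₀ ≤ W by omega)
    nlinarith
  have h7 : (0 : ℝ) < (W : ℝ) ^ (A - 1) := by positivity
  have h8 := mul_le_mul_of_nonneg_left h4 hC0.le
  nlinarith

theorem tau_le {k : ℕ} (hk : 3 ≤ k) : tau k ≤ 2 ^ (k - 1) + 1 :=
  Nat.sInf_le ⟨Nat.le_add_left _ _, two_pow_lt_factorial hk, log_isBigO hk⟩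

theorem lt_tau {k T : ℕ} (hk : 3 ≤ k)
    (h : ∀ (X ι : Type) [Finite ι] (S : Finset X) (v : ι → X → ℕ), S.card = k →
      Sep v Set.univ S → T ≤ (Pats S v Set.univ (fun _ _ => True) S).card) : T < tau k := by
  have hmem : tau k ∈ {t : ℕ | 1 ≤ t ∧ t ≤ k.factorial ∧
      (fun n : ℕ => Real.log n) =O[atTop] (fun n : ℕ => (f k t n : ℝ))} :=
    Nat.sInf_mem ⟨_, Nat.le_add_left _ _, two_pow_lt_factorial hk, log_isBigO hk⟩
  by_contra hcon
  exact not_isBigO (by omega) (fun X ι _ S v hS hs => (not_lt.1 hcon).trans (h X ι S v hS hs))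
    hmem.2.2

theorem tau_five : tau 5 = 17 := by
  refine le_antisymm (tau_le (by norm_num)) (lt_tau (T := 16) (by norm_num) ?_)
  intro X ι _ S v hS hs
  exact small 5 S hS (Subset.refl _) (card_pos.1 (by omega)) le_rfl _ _ (fun _ _ _ _ => trivial) hs
    (fun _ _ _ _ => trivial)

theorem tau_superpoly (C : ℕ) : ∀ᶠ k : ℕ in atTop, k ^ C < tau k := by
  obtain ⟨K, hK, h⟩ := big (C + 1) (by omega)
  filter_upwards [eventually_ge_atTop (K + 3)] with k hk
  refine lt_tau (by omega) fun X ι _ S v hS hs => ?_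
  have h1 := h X ι S v k S hS (Subset.refl _) _ (fun _ _ => True) (fun _ _ _ _ => trivial) hs
    (fun _ _ _ _ => trivial)
  refine Nat.le_of_mul_le_mul_left (le_trans ?_ h1) hK
  rw [pow_succ, mul_comm (k ^ C)]
  exact Nat.mul_le_mul_right _ (by omega)

end Pool.Agent.P.MP_0a2852_co
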