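import Pool.Agent.P.MP_0a2852_co.Defs
import Pool.Agent.P.MP_0a2852_co.Game

/-! Orders induced by permutations, and the bound `f k (2 ^ (k - 1) + 1) n = Ω(log n)`. -/

namespace Pool.Agent.P.MP_0a2852_co

open Finset Filter Asymptotics

variable {n : ℕ}

theorem orderOf_pairwise (π : Equiv.Perm (Fin n)) (X : Finset (Fin n)) :
    (orderOf π X).Pairwise fun x y => π.symm x < π.symm y := by
  apply List.Pairwise.filter
  rw [List.pairwise_ofFn]
  intro i j hij
  simpa using hij

theorem mem_orderOf {π : Equiv.Perm (Fin n)} {X : Finset (Fin n)} {x : Fin n} :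
    x ∈ orderOf π X ↔ x ∈ X := by
  simp only [orderOf, List.mem_filter, List.mem_ofFn, decide_eq_true_eq]
  exact ⟨fun h => h.2, fun h => ⟨⟨π.symm x, by simp⟩, h⟩⟩

theorem orderOf_nodup (π : Equiv.Perm (Fin n)) (X : Finset (Fin n)) : (orderOf π X).Nodup :=
  (orderOf_pairwise π X).imp fun h he => by
    subst he
    exact lt_irrefl _ h

theorem orderOf_eq_iff {π π' : Equiv.Perm (Fin n)} {X : Finset (Fin n)} :
    orderOf π X = orderOf π' X ↔
      ∀ x ∈ X, ∀ y ∈ X, (π.symm x < π.symm y ↔ π'.symm x < π'.symm y) := by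
  constructor
  · intro h x hx y hy
    by_cases hxy : x = y
    · simp [hxy]
    have h1 := orderOf_pairwise π X
    have h2 := orderOf_pairwise π' X
    rw [← h] at h2
    have h3 : (orderOf π X).Pairwise fun x y => (π.symm x < π.symm y ∧ π'.symm x < π'.symm y) ∨
        (π.symm y < π.symm x ∧ π'.symm y < π'.symm x) := (h1.and h2).imp Or.inl
    have : Std.Symm fun x y => (π.symm x < π.symm y ∧ π'.symm x < π'.symm y) ∨
        (π.symm y < π.symm x ∧ π'.symm y < π'.symm x) := ⟨fun a b hab => Or.symm hab⟩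
    have h5 := h3.forall (mem_orderOf.2 hx) (mem_orderOf.2 hy) hxy
    rcases h5 with h5 | h5
    · exact ⟨fun _ => h5.2, fun _ => h5.1⟩
    · exact ⟨fun h => absurd h (not_lt.2 h5.1.le), fun h => absurd h (not_lt.2 h5.2.le)⟩
  · intro h
    have h2 : (orderOf π' X).Pairwise fun x y => π.symm x < π.symm y := by
      refine (orderOf_pairwise π' X).imp_of_mem fun {a b} ha hb hab => ?_
      exact (h a (mem_orderOf.1 ha) b (mem_orderOf.1 hb)).2 hab
    refine List.Perm.eq_of_pairwise (le := fun x y => π.symm x < π.symm y) ?_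
      (orderOf_pairwise π X) h2 ?_
    · intro a b _ _ h1 h2
      exact absurd h1 (not_lt.2 h2.le)
    · rw [List.perm_ext_iff_of_nodup (orderOf_nodup _ _) (orderOf_nodup _ _)]
      intro a
      rw [mem_orderOf, mem_orderOf]

theorem exists_perm (l : List (Fin n → ℕ)) (h : ∀ x y, x ≠ y → ∃ g ∈ l, g x ≠ g y) :
    ∃ π : Equiv.Perm (Fin n), ∀ x y, π.symm x < π.symm y ↔ lexLt l x y := by
  classical
  let r : Fin n → ℕ := fun x => (univ.filter fun z => lexLt l z x).card
  have hr : ∀ x y, lexLt l x y → r x < r y := by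
    intro x y hxy
    apply card_lt_card
    rw [ssubset_iff_of_subset]
    · exact ⟨x, by simp [hxy], fun h' => lexLt_asymm (mem_filter.1 h').2 (mem_filter.1 h').2⟩
    · intro z hz
      exact mem_filter.2 ⟨mem_univ _, lexLt_trans (mem_filter.1 hz).2 hxy⟩
  have hm := Tuple.monotone_sort r
  have key : ∀ x y, lexLt l x y → (Tuple.sort r).symm x < (Tuple.sort r).symm y := by
    intro x y hxy
    by_contra hcon
    have := hm (not_lt.1 hcon)
    simp only [Function.comp, Equiv.apply_symm_apply] at this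
    exact absurd (hr x y hxy) (not_lt.2 this)
  refine ⟨Tuple.sort r, fun x y => ⟨fun hxy => ?_, key x y⟩⟩
  have hne : x ≠ y := by
    rintro rfl
    exact lt_irrefl _ hxy
  rcases lexLt_total (h x y hne) with h' | h'
  · exact h'
  · exact absurd hxy (not_lt.2 (key y x h').le)

theorem card_image_le_card_image {α β γ : Type} [DecidableEq β] [DecidableEq γ] (s : Finset α)
    (F : α → β) (G : α → γ) (h : ∀ a ∈ s, ∀ b ∈ s, G a = G b → F a = F b) :
    (s.image F).card ≤ (s.image G).card := by
  obtain ⟨u, hu, hinj, him⟩ := exists_subset_injOn_image_eq_of_surjOn (f := F) (s : Set α)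
    (s.image F) (by
      intro b hb
      obtain ⟨x, hx, rfl⟩ := mem_image.1 hb
      exact ⟨x, hx, rfl⟩)
  rw [← him, card_image_of_injOn hinj]
  apply card_le_card_of_injOn G
  · intro a ha
    exact mem_image_of_mem _ (hu ha)
  · intro a ha b hb hab
    exact hinj ha hb (h a (hu ha) b (hu hb) hab)

theorem univ_shatters (X : Finset (Fin n)) : Shatters univ X.card.factorial X := by
  classical
  let e := X.equivFin
  have hex : ∀ σ : Equiv.Perm (Fin X.card), ∃ π : Equiv.Perm (Fin n), ∀ a b : X,
      σ (e a) < σ (e b) → π.symm a < π.symm b := by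
    intro σ
    obtain ⟨π, hπ⟩ := exists_perm
      [fun x => if h : x ∈ X then (σ (e ⟨x, h⟩) : ℕ) else 0, fun x => (x : ℕ)]
      (fun x y hxy => ⟨fun x => (x : ℕ), by simp, fun h => hxy (Fin.ext h)⟩)
    refine ⟨π, fun a b hab => (hπ a b).2 (Or.inl ?_)⟩
    simpa using hab
  choose F hF using hex
  unfold Shatters
  have hc : X.card.factorial = (univ : Finset (Equiv.Perm (Fin X.card))).card := by
    simp [Fintype.card_perm]
  rw [hc]
  apply card_le_card_of_injOn (fun σ => orderOf (F σ) X)
  · intro σ _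
    exact mem_coe.2 (mem_image_of_mem _ (mem_univ _))
  · intro σ _ σ' _ h
    have h1 := orderOf_eq_iff.1 h
    have h2 : StrictMono (σ' ∘ σ.symm) := by
      intro a b hab
      have h3 := hF σ (e.symm (σ.symm a)) (e.symm (σ.symm b)) (by simpa using hab)
      have h4 := (h1 _ (e.symm (σ.symm a)).2 _ (e.symm (σ.symm b)).2).1 h3
      by_contra hcon
      rcases (not_lt.1 hcon).lt_or_eq with h5 | h5
      · have h6 := hF σ' (e.symm (σ.symm b)) (e.symm (σ.symm a)) (by simpa using h5)
        exact absurd h4 (not_lt.2 h6.le)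
      · have h6 : b = a := σ.symm.injective (σ'.injective h5)
        exact absurd hab (by simp [h6])
    have h3 : ∀ a, σ' (σ.symm a) = a := fun a => Fin.ext
      (Fin.coe_orderIso_apply (h2.orderIsoOfSurjective _ (σ'.surjective.comp σ.symm.surjective)) a)
    ext a
    have := h3 (σ a)
    rw [Equiv.symm_apply_apply] at this
    rw [this]

theorem f_spec {k t : ℕ} (ht : t ≤ k.factorial) (n : ℕ) :
    ∃ P : Finset (Equiv.Perm (Fin n)), P.card = f k t n ∧
      ∀ X : Finset (Fin n), X.card = k → Shatters P t X := by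
  have : {m : ℕ | ∃ P : Finset (Equiv.Perm (Fin n)), P.card = m ∧
      ∀ X : Finset (Fin n), X.card = k → Shatters P t X}.Nonempty :=
    ⟨_, univ, rfl, fun X hX => ht.trans (hX ▸ univ_shatters X)⟩
  exact Nat.sInf_mem this

theorem f_le {k t : ℕ} {P : Finset (Equiv.Perm (Fin n))}
    (h : ∀ X : Finset (Fin n), X.card = k → Shatters P t X) : f k t n ≤ P.card :=
  Nat.sInf_le ⟨P, rfl, h⟩

theorem forcing (P : Finset (Equiv.Perm (Fin n))) (j : ℕ) : ∀ Y : Finset (Fin n),
    2 ^ ((P.card + 1) * j) ≤ Y.card → ∃ X ⊆ Y, X.card = j + 1 ∧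
      (P.image fun π => orderOf π X).card ≤ 2 ^ j := by
  induction j with
  | zero =>
    intro Y hY
    obtain ⟨x, hx⟩ : Y.Nonempty := card_pos.1 (by simpa using hY)
    refine ⟨{x}, singleton_subset_iff.2 hx, rfl, card_le_one.2 ?_⟩
    intro a ha b hb
    obtain ⟨π, -, rfl⟩ := mem_image.1 ha
    obtain ⟨π', -, rfl⟩ := mem_image.1 hb
    refine orderOf_eq_iff.2 fun y hy z hz => ?_
    rw [mem_singleton] at hy hz
    simp [hy, hz]
  | succ j ih =>
    intro Y hY
    have hpos : 0 < 2 ^ P.card * 2 ^ ((P.card + 1) * j) := by positivity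
    have hY' : 2 * (2 ^ P.card * 2 ^ ((P.card + 1) * j)) ≤ Y.card := by
      refine le_trans (le_of_eq ?_) hY
      ring
    obtain ⟨x, hx⟩ : Y.Nonempty := card_pos.1 (by omega)
    obtain ⟨T, -, hT⟩ := exists_le_card_fiber_of_mul_le_card_of_maps_to (s := Y.erase x)
      (t := P.powerset) (f := fun y => P.filter fun π => π.symm x < π.symm y)
      (n := 2 ^ ((P.card + 1) * j)) (fun y _ => mem_powerset.2 (filter_subset _ _))
      ⟨∅, empty_mem_powerset _⟩ (by
        rw [card_powerset, card_erase_of_mem hx]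
        omega)
    obtain ⟨X, hX, hXc, hXp⟩ := ih _ hT
    have hxX : x ∉ X := fun h => by simpa using (mem_filter.1 (hX h)).1
    have hsig : ∀ π ∈ P, ∀ y ∈ X, π.symm x < π.symm y ↔ π ∈ T := by
      intro π hπ y hy
      rw [← (mem_filter.1 (hX hy)).2]
      simp [hπ]
    refine ⟨insert x X, insert_subset hx fun y hy => mem_of_mem_erase (mem_filter.1 (hX hy)).1,
      by rw [card_insert_of_notMem hxX, hXc], ?_⟩
    refine (card_image_le_card_image P _ (fun π => (orderOf π X, decide (π ∈ T))) ?_).trans ?_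
    · intro π hπ π' hπ' h
      obtain ⟨h1, h2⟩ := Prod.mk.inj h
      have h3 : π ∈ T ↔ π' ∈ T := by simpa using h2
      have h4 : ∀ y ∈ X, π.symm x < π.symm y ↔ π'.symm x < π'.symm y := fun y hy => by
        rw [hsig π hπ y hy, hsig π' hπ' y hy, h3]
      refine orderOf_eq_iff.2 fun y hy z hz => ?_
      rcases mem_insert.1 hy with rfl | hy' <;> rcases mem_insert.1 hz with rfl | hz'
      · simp
      · exact h4 z hz'
      · have hne : y ≠ z := fun h => hxX (h ▸ hy')
        have h5 := h4 y hy'
        have e1 : π.symm y ≠ π.symm z := fun h => hne (π.symm.injective h)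
        have e2 : π'.symm y ≠ π'.symm z := fun h => hne (π'.symm.injective h)
        constructor
        · intro h
          exact lt_of_le_of_ne (not_lt.1 fun h' => absurd (h5.2 h') (not_lt.2 h.le)) e2
        · intro h
          exact lt_of_le_of_ne (not_lt.1 fun h' => absurd (h5.1 h') (not_lt.2 h.le)) e1
      · exact orderOf_eq_iff.1 h1 y hy' z hz'
    · have h1 : (P.image fun π => (orderOf π X, decide (π ∈ T))) ⊆
          (P.image fun π => orderOf π X) ×ˢ univ := by
        intro z hz
        obtain ⟨π, hπ, rfl⟩ := mem_image.1 hz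
        exact mem_product.2 ⟨mem_image_of_mem _ hπ, mem_univ _⟩
      refine (card_le_card h1).trans ?_
      rw [card_product, pow_succ]
      simpa using hXp

theorem two_pow_lt_factorial {k : ℕ} (hk : 3 ≤ k) : 2 ^ (k - 1) + 1 ≤ k.factorial := by
  induction k, hk using Nat.le_induction with
  | base => decide
  | succ k hk ih =>
    rw [Nat.factorial_succ, show k + 1 - 1 = k - 1 + 1 by omega, pow_succ]
    nlinarith [Nat.two_pow_pos (k - 1)]

theorem log_isBigO {k : ℕ} (hk : 3 ≤ k) :
    (fun n : ℕ => Real.log n) =O[atTop] fun n : ℕ => (f k (2 ^ (k - 1) + 1) n : ℝ) := by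
  refine IsBigO.of_bound (2 * k) ?_
  filter_upwards [eventually_ge_atTop k] with n hn
  obtain ⟨P, hP, hP'⟩ := f_spec (two_pow_lt_factorial hk) n
  rw [← hP]
  have h1 : n < 2 ^ ((P.card + 1) * (k - 1)) := by
    by_contra hcon
    obtain ⟨X, -, hX, hX'⟩ := forcing P (k - 1) univ (by simpa using hcon)
    have := hP' X (by omega)
    unfold Shatters at this
    omega
  have h2 : 1 ≤ P.card := by
    obtain ⟨X, -, hX⟩ := exists_subset_card_eq (s := (univ : Finset (Fin n))) (n := k)
      (by simpa using hn)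
    have h3 := hP' X hX
    unfold Shatters at h3
    have h4 := card_image_le (s := P) (f := fun π => orderOf π X)
    have := Nat.two_pow_pos (k - 1)
    omega
  have hn0 : (0 : ℝ) < n := by exact_mod_cast (show 0 < n by omega)
  have h3 : Real.log n ≤ ((P.card + 1) * (k - 1) : ℕ) * Real.log 2 := by
    rw [← Real.log_pow]
    apply Real.log_le_log hn0
    exact_mod_cast h1.le
  have h4 : Real.log 2 ≤ 1 := by
    have := Real.log_le_sub_one_of_pos (show (0 : ℝ) < 2 by norm_num)
    linarith
  have h5 : (P.card + 1) * (k - 1) ≤ 2 * k * P.card := by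
    have : (P.card + 1) * (k - 1) ≤ (2 * P.card) * k := Nat.mul_le_mul (by omega) (by omega)
    linarith
  have h6 : (((P.card + 1) * (k - 1) : ℕ) : ℝ) ≤ 2 * k * P.card := by exact_mod_cast h5
  rw [Real.norm_of_nonneg (Real.log_natCast_nonneg n), Real.norm_of_nonneg (by positivity)]
  have h7 : (0 : ℝ) ≤ ((P.card + 1) * (k - 1) : ℕ) := by positivity
  nlinarith

end Pool.Agent.P.MP_0a2852_co
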